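import Pool.Agent.K1H52.Sts

/-!
The final combinatorics (auxiliary lemma of the project of helper52).
-/

set_option autoImplicit false

open Finset

namespace Pool.Agent.K1H72.NS.Comb

/-- The integral part of the logarithm to the base two. -/
noncomputable def lg (x : ℝ) : ℕ := Nat.log 2 ⌊x⌋₊

lemma lg_le {x : ℝ} (h : 1 ≤ x) : (2 : ℝ) ^ lg x ≤ x := by
  have h0 : ⌊x⌋₊ ≠ 0 := by
    have := Nat.one_le_floor_iff x |>.2 h
    omega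
  have h1 : 2 ^ lg x ≤ ⌊x⌋₊ := Nat.pow_log_le_self 2 h0
  have h2 : ((2 ^ lg x : ℕ) : ℝ) ≤ (⌊x⌋₊ : ℝ) := by exact_mod_cast h1
  have h3 : (⌊x⌋₊ : ℝ) ≤ x := Nat.floor_le (by linarith)
  push_cast at h2
  linarith

lemma lt_lg (x : ℝ) (hx : 1 ≤ x) : x < (2 : ℝ) ^ (lg x + 1) := by
  have h1 : ⌊x⌋₊ < 2 ^ (lg x + 1) := Nat.lt_pow_succ_log_self (by norm_num) _
  have h2 := (Nat.floor_lt (by linarith)).1 h1
  push_cast at h2
  exact h2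

lemma lg_eq {x : ℝ} {f : ℕ} (h1 : (2 : ℝ) ^ f ≤ x) (h2 : x < (2 : ℝ) ^ (f + 1)) :
    lg x = f := by
  have h0 : (1 : ℝ) ≤ x := le_trans (one_le_pow₀ (by norm_num)) h1
  have h3 := lg_le h0
  have h4 := lt_lg x h0
  have h5 : (2 : ℝ) ^ lg x < 2 ^ (f + 1) := lt_of_le_of_lt h3 h2
  have h6 : (2 : ℝ) ^ f < 2 ^ (lg x + 1) := lt_of_le_of_lt h1 h4
  have h7 := (pow_lt_pow_iff_right₀ (by norm_num : (1 : ℝ) < 2)).1 h5
  have h8 := (pow_lt_pow_iff_right₀ (by norm_num : (1 : ℝ) < 2)).1 h6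
  omega

lemma lg_iff {x : ℝ} {f : ℕ} (h : 1 ≤ x) :
    lg x = f ↔ ((2 : ℝ) ^ f ≤ x ∧ x < (2 : ℝ) ^ (f + 1)) := by
  constructor
  · rintro rfl
    exact ⟨lg_le h, lt_lg x h⟩
  · rintro ⟨h1, h2⟩
    exact lg_eq h1 h2

section

variable {α : Type} {Z : Finset α} {m : α → ℝ} {ℓ : ℕ → ℝ} {N n₀ : ℕ} {F : ℕ → α → ℝ}
  {q : ℕ → ℕ → α → ℝ} {D : ℝ}

lemma h9 (hm : ∀ z ∈ Z, 0 ≤ m z) (hℓ : ∀ n, 0 < ℓ n) (hq : ∀ n k z, 0 ≤ q n k z)
    (hF : ∀ n, n₀ ≤ n → n ≤ N → ∀ z ∈ Z, 1 ≤ F n z)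
    (H : ∀ k f : ℕ, ∑ n ∈ Finset.Icc (max n₀ k) N, (ℓ n)⁻¹ *
      ∑ z ∈ Z with 2 ^ f ≤ F n z ∧ F n z < 2 ^ (f + 1), m z * q n k z
        ≤ D * max 1 (2 ^ f / 2 ^ k)) (lo k f : ℕ) (hlo : n₀ ≤ lo) :
    ∑ n ∈ Icc lo N, ∑ z ∈ Z, (if lg (F n z) = f ∧ k ≤ n then (ℓ n)⁻¹ * m z * q n k z else 0)
      ≤ D * max 1 (2 ^ f / 2 ^ k) := by
  refine le_trans ?_ (H k f)
  have h1 : ∑ n ∈ Icc lo N, ∑ z ∈ Z,
      (if lg (F n z) = f ∧ k ≤ n then (ℓ n)⁻¹ * m z * q n k z else 0) =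
      ∑ n ∈ (Icc lo N).filter (fun n => k ≤ n), ∑ z ∈ Z,
      (if lg (F n z) = f ∧ k ≤ n then (ℓ n)⁻¹ * m z * q n k z else 0) := by
    rw [Finset.sum_filter]
    refine Finset.sum_congr rfl fun n _ => ?_
    split_ifs with h
    · rfl
    · refine Finset.sum_eq_zero fun z _ => ?_
      rw [if_neg (fun h' => h h'.2)]
  rw [h1]
  have h2 : (Icc lo N).filter (fun n => k ≤ n) ⊆ Icc (max n₀ k) N := by
    intro n hn
    simp only [Finset.mem_filter, Finset.mem_Icc] at hn ⊢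
    omega
  refine le_trans (Finset.sum_le_sum_of_subset_of_nonneg h2 ?_) ?_
  · intro n _ _
    refine Finset.sum_nonneg fun z hz => ?_
    split_ifs
    · exact mul_nonneg (mul_nonneg (inv_nonneg.2 (hℓ n).le) (hm z hz)) (hq n k z)
    · exact le_rfl
  · refine Finset.sum_le_sum fun n hn => ?_
    rw [Finset.mem_Icc] at hn
    rw [Finset.sum_filter, Finset.mul_sum]
    refine Finset.sum_le_sum fun z hz => ?_
    have h3 := hF n (by omega) hn.2 z hz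
    by_cases h4 : (2 : ℝ) ^ f ≤ F n z ∧ F n z < 2 ^ (f + 1)
    · rw [if_pos ⟨(lg_iff h3).2 h4, by omega⟩, if_pos h4, mul_assoc]
    · rw [if_neg (fun h' => h4 ((lg_iff h3).1 h'.1)), if_neg h4]
      simp

lemma sw (hm : ∀ z ∈ Z, 0 ≤ m z) (hℓ : ∀ n, 0 < ℓ n) (hq : ∀ n k z, 0 ≤ q n k z)
    (hF : ∀ n, n₀ ≤ n → n ≤ N → ∀ z ∈ Z, 1 ≤ F n z)
    (H : ∀ k f : ℕ, ∑ n ∈ Finset.Icc (max n₀ k) N, (ℓ n)⁻¹ *
      ∑ z ∈ Z with 2 ^ f ≤ F n z ∧ F n z < 2 ^ (f + 1), m z * q n k z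
        ≤ D * max 1 (2 ^ f / 2 ^ k)) (lo f : ℕ) (hlo : n₀ ≤ lo) (J : Finset ℕ) (β : ℕ → ℝ)
    (hβ : ∀ j, 0 ≤ β j) :
    ∑ n ∈ Icc lo N, ∑ z ∈ Z, (if lg (F n z) = f then
        (ℓ n)⁻¹ * m z * ∑ j ∈ J with j ≤ n, β j * q n j z else 0)
      ≤ ∑ j ∈ J, β j * (D * max 1 (2 ^ f / 2 ^ j)) := by
  have h1 : ∀ n z, (if lg (F n z) = f then
        (ℓ n)⁻¹ * m z * ∑ j ∈ J with j ≤ n, β j * q n j z else 0) =
        ∑ j ∈ J, β j * (if lg (F n z) = f ∧ j ≤ n then (ℓ n)⁻¹ * m z * q n j z else 0) := by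
    intro n z
    split_ifs with h
    · rw [Finset.sum_filter, Finset.mul_sum]
      refine Finset.sum_congr rfl fun j _ => ?_
      by_cases hj : j ≤ n
      · rw [if_pos hj, if_pos ⟨h, hj⟩]; ring
      · rw [if_neg hj, if_neg (fun h' => hj h'.2)]; ring
    · symm
      refine Finset.sum_eq_zero fun j _ => ?_
      rw [if_neg (fun h' => h h'.1), mul_zero]
  have h2 : ∑ n ∈ Icc lo N, ∑ z ∈ Z, (if lg (F n z) = f then
        (ℓ n)⁻¹ * m z * ∑ j ∈ J with j ≤ n, β j * q n j z else 0) =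
      ∑ j ∈ J, β j * ∑ n ∈ Icc lo N, ∑ z ∈ Z,
        (if lg (F n z) = f ∧ j ≤ n then (ℓ n)⁻¹ * m z * q n j z else 0) := by
    simp_rw [h1, Finset.mul_sum]
    calc _ = ∑ n ∈ Icc lo N, ∑ j ∈ J, ∑ z ∈ Z,
          β j * (if lg (F n z) = f ∧ j ≤ n then (ℓ n)⁻¹ * m z * q n j z else 0) := by
            refine Finset.sum_congr rfl fun n _ => ?_
            rw [Finset.sum_comm]
      _ = _ := by rw [Finset.sum_comm]
  rw [h2]
  exact Finset.sum_le_sum fun j _ => mul_le_mul_of_nonneg_left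
    (h9 hm hℓ hq hF H lo j f hlo) (hβ j)

lemma tr (hm : ∀ z ∈ Z, 0 ≤ m z) (hℓ : ∀ n, 0 < ℓ n) (hq : ∀ n k z, 0 ≤ q n k z)
    (hF : ∀ n, n₀ ≤ n → n ≤ N → ∀ z ∈ Z, 1 ≤ F n z)
    (H : ∀ k f : ℕ, ∑ n ∈ Finset.Icc (max n₀ k) N, (ℓ n)⁻¹ *
      ∑ z ∈ Z with 2 ^ f ≤ F n z ∧ F n z < 2 ^ (f + 1), m z * q n k z
        ≤ D * max 1 (2 ^ f / 2 ^ k)) (lo f : ℕ) (hlo : n₀ ≤ lo) (J : Finset ℕ) (β : ℕ → ℝ)
    (hβ : ∀ j, 0 ≤ β j) (P : ℕ → α → Prop) [∀ n z, Decidable (P n z)] (K : ℝ) (hK : 0 ≤ K)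
    (hP : ∀ n, lo ≤ n → n ≤ N → ∀ z ∈ Z, P n z → lg (F n z) = f ∧
      1 ≤ K * ∑ j ∈ J with j ≤ n, β j * q n j z) :
    ∑ n ∈ Icc lo N, ∑ z ∈ Z, (if P n z then (ℓ n)⁻¹ * m z else 0)
      ≤ K * ∑ j ∈ J, β j * (D * max 1 (2 ^ f / 2 ^ j)) := by
  refine le_trans ?_ (mul_le_mul_of_nonneg_left (sw hm hℓ hq hF H lo f hlo J β hβ) hK)
  rw [Finset.mul_sum]
  refine Finset.sum_le_sum fun n hn => ?_
  rw [Finset.mul_sum]
  refine Finset.sum_le_sum fun z hz => ?_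
  rw [Finset.mem_Icc] at hn
  have h0 : 0 ≤ (ℓ n)⁻¹ * m z := mul_nonneg (inv_nonneg.2 (hℓ n).le) (hm z hz)
  have h1 : 0 ≤ ∑ j ∈ J with j ≤ n, β j * q n j z :=
    Finset.sum_nonneg fun j _ => mul_nonneg (hβ j) (hq n j z)
  by_cases h : P n z
  · obtain ⟨h2, h3⟩ := hP n hn.1 hn.2 z hz h
    rw [if_pos h, if_pos h2]
    calc (ℓ n)⁻¹ * m z = (ℓ n)⁻¹ * m z * 1 := by ring
      _ ≤ (ℓ n)⁻¹ * m z * (K * ∑ j ∈ J with j ≤ n, β j * q n j z) :=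
          mul_le_mul_of_nonneg_left h3 h0
      _ = _ := by ring
  · rw [if_neg h]
    split_ifs
    · exact mul_nonneg hK (mul_nonneg h0 h1)
    · simp

lemma geo34 (n : ℕ) : ∑ i ∈ range n, (3 / 4 : ℝ) ^ i ≤ 4 := by
  have h : ∑ i ∈ range n, (3 / 4 : ℝ) ^ i = 4 * (1 - (3 / 4) ^ n) := by
    induction n with
    | zero => simp
    | succ n ih => rw [Finset.sum_range_succ, ih, pow_succ]; ring
  rw [h]
  have : (0 : ℝ) ≤ (3 / 4) ^ n := by positivity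
  linarith

lemma geo12 (n : ℕ) : ∑ i ∈ range n, (1 / 2 : ℝ) ^ i ≤ 2 := by
  have h : ∑ i ∈ range n, (1 / 2 : ℝ) ^ i = 2 * (1 - (1 / 2) ^ n) := by
    induction n with
    | zero => simp
    | succ n ih => rw [Finset.sum_range_succ, ih, pow_succ]; ring
  rw [h]
  have : (0 : ℝ) ≤ (1 / 2) ^ n := by positivity
  linarith

lemma geo2 (n : ℕ) : ∑ i ∈ range n, (2 : ℝ) ^ i ≤ 2 ^ n := by
  have h : ∑ i ∈ range n, (2 : ℝ) ^ i = 2 ^ n - 1 := by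
    induction n with
    | zero => simp
    | succ n ih => rw [Finset.sum_range_succ, ih, pow_succ]; ring
  rw [h]
  linarith

lemma mx1 {f j : ℕ} (h : j ≤ f) : max 1 ((2 : ℝ) ^ f / 2 ^ j) = 2 ^ f * (1 / 2) ^ j := by
  rw [max_eq_right]
  · rw [one_div, inv_pow]; rfl
  · rw [le_div_iff₀ (by positivity), one_mul]
    exact pow_le_pow_right₀ (by norm_num) h

lemma mx2 {f j : ℕ} (h : f ≤ j) : max 1 ((2 : ℝ) ^ f / 2 ^ j) = 1 := by
  rw [max_eq_left]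
  rw [div_le_one (by positivity)]
  exact pow_le_pow_right₀ (by norm_num) h

lemma mx3 (f j : ℕ) : max 1 ((2 : ℝ) ^ f / 2 ^ j) ≤ 2 ^ f := by
  rcases le_total j f with h | h
  · rw [mx1 h]
    have : (1 / 2 : ℝ) ^ j ≤ 1 := pow_le_one₀ (by norm_num) (by norm_num)
    have h2 : (0 : ℝ) ≤ 2 ^ f := by positivity
    nlinarith
  · rw [mx2 h]
    exact one_le_pow₀ (by norm_num)

/-- The weight of a class. -/
lemma w0 (hm : ∀ z ∈ Z, 0 ≤ m z) (hℓ : ∀ n, 0 < ℓ n) (hq : ∀ n k z, 0 ≤ q n k z)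
    (hF : ∀ n, n₀ ≤ n → n ≤ N → ∀ z ∈ Z, 1 ≤ F n z)
    (H : ∀ k f : ℕ, ∑ n ∈ Finset.Icc (max n₀ k) N, (ℓ n)⁻¹ *
      ∑ z ∈ Z with 2 ^ f ≤ F n z ∧ F n z < 2 ^ (f + 1), m z * q n k z
        ≤ D * max 1 (2 ^ f / 2 ^ k)) {η : ℝ} (hη : 0 < η)
    (h5 : ∀ n, n₀ ≤ n → n ≤ N → ∀ z ∈ Z, η ≤ q n 0 z) (lo f : ℕ) (hlo : n₀ ≤ lo)
    (P : ℕ → α → Prop) [∀ n z, Decidable (P n z)]
    (hP : ∀ n, lo ≤ n → n ≤ N → ∀ z ∈ Z, P n z → lg (F n z) = f) :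
    ∑ n ∈ Icc lo N, ∑ z ∈ Z, (if P n z then (ℓ n)⁻¹ * m z else 0) ≤ D * (2 ^ f / η) := by
  have h := tr hm hℓ hq hF H lo f hlo {0} (fun _ => 1) (fun _ => zero_le_one) P (1 / η)
    (by positivity) ?_
  · refine h.trans (le_of_eq ?_)
    rw [Finset.sum_singleton, mx1 (Nat.zero_le f)]
    simp only [pow_zero]
    ring
  · intro n h1 h2 z hz hPn
    refine ⟨hP n h1 h2 z hz hPn, ?_⟩
    have h3 := h5 n (by omega) h2 z hz
    have h4 : ({0} : Finset ℕ).filter (fun j => j ≤ n) = {0} := by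
      rw [Finset.filter_eq_self]
      intro j hj
      rw [Finset.mem_singleton] at hj
      omega
    rw [h4, Finset.sum_singleton, one_mul, one_div, ← div_eq_inv_mul, le_div_iff₀ hη]
    linarith

/-- The first event. -/
lemma w1 (hm : ∀ z ∈ Z, 0 ≤ m z) (hℓ : ∀ n, 0 < ℓ n) (hq : ∀ n k z, 0 ≤ q n k z)
    (hF : ∀ n, n₀ ≤ n → n ≤ N → ∀ z ∈ Z, 1 ≤ F n z)
    (H : ∀ k f : ℕ, ∑ n ∈ Finset.Icc (max n₀ k) N, (ℓ n)⁻¹ *
      ∑ z ∈ Z with 2 ^ f ≤ F n z ∧ F n z < 2 ^ (f + 1), m z * q n k z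
        ≤ D * max 1 (2 ^ f / 2 ^ k)) (hD : 0 ≤ D) {c : ℝ} (hc : 0 < c) (lo f : ℕ) (hlo : n₀ ≤ lo)
    (P : ℕ → α → Prop) [∀ n z, Decidable (P n z)]
    (hP : ∀ n, lo ≤ n → n ≤ N → ∀ z ∈ Z, P n z → lg (F n z) = f ∧ f ≤ n ∧
      c * 2 ^ f ≤ ∑ j ∈ Finset.range (f + 1), √(q n j z)) :
    ∑ n ∈ Icc lo N, ∑ z ∈ Z, (if P n z then (ℓ n)⁻¹ * m z else 0) ≤
      D * (2 * (f + 1) / c ^ 2 * (1 / 2) ^ f) := by
  have h := tr hm hℓ hq hF H lo f hlo (range (f + 1)) (fun _ => 1) (fun _ => zero_le_one) P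
    ((f + 1) / (c ^ 2 * 4 ^ f)) (by positivity) ?_
  · refine h.trans ?_
    have h1 : ∑ j ∈ range (f + 1), (1 : ℝ) * (D * max 1 (2 ^ f / 2 ^ j)) ≤ 2 * (D * 2 ^ f) := by
      calc ∑ j ∈ range (f + 1), (1 : ℝ) * (D * max 1 (2 ^ f / 2 ^ j))
          = D * 2 ^ f * ∑ j ∈ range (f + 1), (1 / 2 : ℝ) ^ j := by
            rw [Finset.mul_sum]
            refine Finset.sum_congr rfl fun j hj => ?_
            rw [mx1 (by have := Finset.mem_range.1 hj; omega)]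
            ring
        _ ≤ D * 2 ^ f * 2 := mul_le_mul_of_nonneg_left (geo12 _) (by positivity)
        _ = _ := by ring
    refine (mul_le_mul_of_nonneg_left h1 (by positivity)).trans (le_of_eq ?_)
    have h4 : (4 : ℝ) ^ f = 2 ^ f * 2 ^ f := by rw [← mul_pow]; norm_num
    rw [h4, one_div, inv_pow]
    have h5 : (2 : ℝ) ^ f ≠ 0 := by positivity
    field_simp
  · intro n h1 h2 z hz hPn
    obtain ⟨h3, h4, h5⟩ := hP n h1 h2 z hz hPn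
    refine ⟨h3, ?_⟩
    have h6 : (range (f + 1)).filter (fun j => j ≤ n) = range (f + 1) := by
      rw [Finset.filter_eq_self]
      intro j hj
      rw [Finset.mem_range] at hj
      omega
    rw [h6]
    have h7 := sq_sum_le_card_mul_sum_sq (s := range (f + 1)) (f := fun j => √(q n j z))
    have h8 : ∑ j ∈ range (f + 1), √(q n j z) ^ 2 = ∑ j ∈ range (f + 1), 1 * q n j z := by
      refine Finset.sum_congr rfl fun j _ => ?_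
      rw [Real.sq_sqrt (hq n j z), one_mul]
    rw [h8, Finset.card_range] at h7
    have h9 : (c * 2 ^ f) ^ 2 ≤ (∑ j ∈ Finset.range (f + 1), √(q n j z)) ^ 2 :=
      pow_le_pow_left₀ (by positivity) h5 2
    have h10 : (c * 2 ^ f) ^ 2 = c ^ 2 * 4 ^ f := by
      rw [mul_pow, ← pow_mul, mul_comm f 2, pow_mul]; norm_num
    rw [div_mul_eq_mul_div, le_div_iff₀ (by positivity), one_mul, ← h10]
    push_cast at h7
    exact h9.trans h7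

/-- The second event. -/
lemma w2 (hm : ∀ z ∈ Z, 0 ≤ m z) (hℓ : ∀ n, 0 < ℓ n) (hq : ∀ n k z, 0 ≤ q n k z)
    (hF : ∀ n, n₀ ≤ n → n ≤ N → ∀ z ∈ Z, 1 ≤ F n z)
    (H : ∀ k f : ℕ, ∑ n ∈ Finset.Icc (max n₀ k) N, (ℓ n)⁻¹ *
      ∑ z ∈ Z with 2 ^ f ≤ F n z ∧ F n z < 2 ^ (f + 1), m z * q n k z
        ≤ D * max 1 (2 ^ f / 2 ^ k)) (hD : 0 ≤ D) {c : ℝ} (hc : 0 < c) (lo f : ℕ) (hlo : n₀ ≤ lo)
    (P : ℕ → α → Prop) [∀ n z, Decidable (P n z)]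
    (hP : ∀ n, lo ≤ n → n ≤ N → ∀ z ∈ Z, P n z → lg (F n z) = f ∧
      c * 4 ^ f ≤ ∑ j ∈ Finset.Ico (f + 1) (n + 1), (3 / 4 : ℝ) ^ (j - (f + 1)) * q n j z) :
    ∑ n ∈ Icc lo N, ∑ z ∈ Z, (if P n z then (ℓ n)⁻¹ * m z else 0) ≤
      D * (4 / c * (1 / 4) ^ f) := by
  have h := tr hm hℓ hq hF H lo f hlo (Ico (f + 1) (N + 1)) (fun j => (3 / 4 : ℝ) ^ (j - (f + 1)))
    (fun _ => by positivity) P (1 / (c * 4 ^ f)) (by positivity) ?_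
  · refine h.trans ?_
    have h1 : ∑ j ∈ Ico (f + 1) (N + 1), (3 / 4 : ℝ) ^ (j - (f + 1)) *
        (D * max 1 (2 ^ f / 2 ^ j)) ≤ 4 * D := by
      calc ∑ j ∈ Ico (f + 1) (N + 1), (3 / 4 : ℝ) ^ (j - (f + 1)) * (D * max 1 (2 ^ f / 2 ^ j))
          = ∑ j ∈ Ico (f + 1) (N + 1), (3 / 4 : ℝ) ^ (j - (f + 1)) * D := by
            refine Finset.sum_congr rfl fun j hj => ?_
            rw [mx2 (by have := Finset.mem_Ico.1 hj; omega), mul_one]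
        _ = (∑ i ∈ range (N + 1 - (f + 1)), (3 / 4 : ℝ) ^ i) * D := by
            rw [Finset.sum_Ico_eq_sum_range, Finset.sum_mul]
            refine Finset.sum_congr rfl fun j hj => ?_
            congr 2
            omega
        _ ≤ 4 * D := mul_le_mul_of_nonneg_right (geo34 _) hD
    refine (mul_le_mul_of_nonneg_left h1 (by positivity)).trans (le_of_eq ?_)
    rw [one_div_pow]
    have h5 : (4 : ℝ) ^ f ≠ 0 := by positivity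
    field_simp
  · intro n h1 h2 z hz hPn
    obtain ⟨h3, h5⟩ := hP n h1 h2 z hz hPn
    refine ⟨h3, ?_⟩
    have h6 : (Ico (f + 1) (N + 1)).filter (fun j => j ≤ n) = Ico (f + 1) (n + 1) := by
      ext j
      simp only [Finset.mem_filter, Finset.mem_Ico]
      omega
    rw [h6, one_div, ← div_eq_inv_mul, le_div_iff₀ (by positivity), one_mul]
    exact h5

/-- Large values of the weighted sum. -/
lemma w3a (hm : ∀ z ∈ Z, 0 ≤ m z) (hℓ : ∀ n, 0 < ℓ n) (hq : ∀ n k z, 0 ≤ q n k z)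
    (hF : ∀ n, n₀ ≤ n → n ≤ N → ∀ z ∈ Z, 1 ≤ F n z)
    (H : ∀ k f : ℕ, ∑ n ∈ Finset.Icc (max n₀ k) N, (ℓ n)⁻¹ *
      ∑ z ∈ Z with 2 ^ f ≤ F n z ∧ F n z < 2 ^ (f + 1), m z * q n k z
        ≤ D * max 1 (2 ^ f / 2 ^ k)) (hD : 0 ≤ D) {A : ℝ} (hA : 0 < A) (f : ℕ)
    (P : ℕ → α → Prop) [∀ n z, Decidable (P n z)]
    (hP : ∀ n, n₀ ≤ n → n ≤ N → ∀ z ∈ Z, P n z → lg (F n z) = f ∧
      A ≤ ∑ k ∈ Finset.range (n + 1), (3 / 4 : ℝ) ^ k * q n k z) :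
    ∑ n ∈ Icc n₀ N, ∑ z ∈ Z, (if P n z then (ℓ n)⁻¹ * m z else 0) ≤
      D * (4 / A) * 2 ^ f := by
  have h := tr hm hℓ hq hF H n₀ f le_rfl (range (N + 1)) (fun j => (3 / 4 : ℝ) ^ j)
    (fun _ => by positivity) P (1 / A) (by positivity) ?_
  · refine h.trans ?_
    have h1 : ∑ j ∈ range (N + 1), (3 / 4 : ℝ) ^ j *
        (D * max 1 (2 ^ f / 2 ^ j)) ≤ 4 * (D * 2 ^ f) := by
      calc ∑ j ∈ range (N + 1), (3 / 4 : ℝ) ^ j * (D * max 1 (2 ^ f / 2 ^ j))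
          ≤ ∑ j ∈ range (N + 1), (3 / 4 : ℝ) ^ j * (D * 2 ^ f) := by
            refine Finset.sum_le_sum fun j _ => ?_
            refine mul_le_mul_of_nonneg_left ?_ (by positivity)
            exact mul_le_mul_of_nonneg_left (mx3 f j) hD
        _ = (∑ i ∈ range (N + 1), (3 / 4 : ℝ) ^ i) * (D * 2 ^ f) := by
            rw [Finset.sum_mul]
        _ ≤ 4 * (D * 2 ^ f) := mul_le_mul_of_nonneg_right (geo34 _) (by positivity)
    refine (mul_le_mul_of_nonneg_left h1 (by positivity)).trans (le_of_eq ?_)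
    ring
  · intro n h1 h2 z hz hPn
    obtain ⟨h3, h5⟩ := hP n h1 h2 z hz hPn
    refine ⟨h3, ?_⟩
    have h6 : (range (N + 1)).filter (fun j => j ≤ n) = range (n + 1) := by
      ext j
      simp only [Finset.mem_filter, Finset.mem_range]
      omega
    rw [h6, one_div, ← div_eq_inv_mul, le_div_iff₀ hA, one_mul]
    exact h5

lemma pow_s8 (f : ℕ) : (2 : ℝ) ^ ((3 * f + 1) / 2) ≤ 2 * √8 ^ f := by
  have h1 : (0 : ℝ) ≤ 2 * √8 ^ f := by positivity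
  refine (pow_le_pow_iff_left₀ (by positivity) h1 two_ne_zero).1 ?_
  have h2 : ((2 : ℝ) ^ ((3 * f + 1) / 2)) ^ 2 = 2 ^ (2 * ((3 * f + 1) / 2)) := by
    rw [← pow_mul, mul_comm]
  have h3 : (2 * √8 ^ f) ^ 2 = 4 * 8 ^ f := by
    rw [mul_pow, ← pow_mul, mul_comm f 2, pow_mul, Real.sq_sqrt (by norm_num)]
    norm_num
  rw [h2, h3]
  calc (2 : ℝ) ^ (2 * ((3 * f + 1) / 2)) ≤ 2 ^ (3 * f + 2) :=
        pow_le_pow_right₀ (by norm_num) (by omega)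
    _ = 4 * 8 ^ f := by rw [pow_add, pow_mul]; norm_num; ring

/-- The third event. -/
lemma w3 (hm : ∀ z ∈ Z, 0 ≤ m z) (hℓ : ∀ n, 0 < ℓ n) (hmon : Monotone ℓ)
    (hq : ∀ n k z, 0 ≤ q n k z)
    (hF : ∀ n, n₀ ≤ n → n ≤ N → ∀ z ∈ Z, 1 ≤ F n z)
    (H : ∀ k f : ℕ, ∑ n ∈ Finset.Icc (max n₀ k) N, (ℓ n)⁻¹ *
      ∑ z ∈ Z with 2 ^ f ≤ F n z ∧ F n z < 2 ^ (f + 1), m z * q n k z
        ≤ D * max 1 (2 ^ f / 2 ^ k)) (hD : 0 ≤ D) {A : ℝ} (hA : 0 < A) (lo f : ℕ)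
    (P : ℕ → α → Prop) [∀ n z, Decidable (P n z)]
    (hP : ∀ n, lo ≤ n → n ≤ N → ∀ z ∈ Z, P n z → n₀ + f ≤ n ∧ 2 * lg (F (n - f) z) < 3 * f ∧
      A ≤ ∑ k ∈ Finset.range (n - f + 1), (3 / 4 : ℝ) ^ k * q (n - f) k z) :
    ∑ n ∈ Icc lo N, ∑ z ∈ Z, (if P n z then (ℓ n)⁻¹ * m z else 0) ≤
      D * (8 / A) * √8 ^ f := by
  classical
  set Q : ℕ → α → Prop := fun n z =>
    A ≤ ∑ k ∈ Finset.range (n + 1), (3 / 4 : ℝ) ^ k * q n k z with hQ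
  set G : ℕ → ℝ := fun n => ∑ z ∈ Z, (if 2 * lg (F n z) < 3 * f ∧ Q n z then (ℓ n)⁻¹ * m z
    else 0) with hG
  have hw : ∀ n, ∀ z ∈ Z, 0 ≤ (ℓ n)⁻¹ * m z := fun n z hz =>
    mul_nonneg (inv_nonneg.2 (hℓ n).le) (hm z hz)
  have hG0 : ∀ n, 0 ≤ G n := fun n => Finset.sum_nonneg fun z hz => by
    split_ifs
    · exact hw n z hz
    · exact le_rfl
  have h1 : ∑ n ∈ Icc lo N, ∑ z ∈ Z, (if P n z then (ℓ n)⁻¹ * m z else 0) ≤
      ∑ n ∈ (Icc lo N).filter (fun n => n₀ + f ≤ n), G (n - f) := by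
    rw [Finset.sum_filter]
    refine Finset.sum_le_sum fun n hn => ?_
    rw [Finset.mem_Icc] at hn
    split_ifs with h
    · refine Finset.sum_le_sum fun z hz => ?_
      by_cases hp : P n z
      · obtain ⟨_, h3, h4⟩ := hP n hn.1 hn.2 z hz hp
        rw [if_pos hp, if_pos ⟨h3, h4⟩]
        refine mul_le_mul_of_nonneg_right ?_ (hm z hz)
        exact inv_anti₀ (hℓ _) (hmon (Nat.sub_le n f))
      · rw [if_neg hp]
        split_ifs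
        · exact hw _ z hz
        · exact le_rfl
    · refine le_of_eq (Finset.sum_eq_zero fun z hz => ?_)
      rw [if_neg]
      intro hp
      exact h (hP n hn.1 hn.2 z hz hp).1
  have h2 : ∑ n ∈ (Icc lo N).filter (fun n => n₀ + f ≤ n), G (n - f) ≤
      ∑ n ∈ Icc n₀ N, G n := by
    rw [← Finset.sum_image (g := fun n => n - f) (f := G)]
    · refine Finset.sum_le_sum_of_subset_of_nonneg ?_ (fun n _ _ => hG0 n)
      intro n hn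
      simp only [Finset.mem_image, Finset.mem_filter, Finset.mem_Icc] at hn ⊢
      obtain ⟨k, hk, rfl⟩ := hn
      omega
    · intro a ha b hb hab
      simp only [Finset.coe_filter, Finset.mem_Icc, Set.mem_ofPred_eq] at ha hb
      simp only at hab
      omega
  have h3 : ∑ n ∈ Icc n₀ N, G n ≤ ∑ g ∈ range ((3 * f + 1) / 2), ∑ n ∈ Icc n₀ N, ∑ z ∈ Z,
      (if lg (F n z) = g ∧ Q n z then (ℓ n)⁻¹ * m z else 0) := by
    have h3' : ∑ g ∈ range ((3 * f + 1) / 2), ∑ n ∈ Icc n₀ N, ∑ z ∈ Z,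
        (if lg (F n z) = g ∧ Q n z then (ℓ n)⁻¹ * m z else 0) =
        ∑ n ∈ Icc n₀ N, ∑ z ∈ Z, ∑ g ∈ range ((3 * f + 1) / 2),
        (if lg (F n z) = g ∧ Q n z then (ℓ n)⁻¹ * m z else 0) := by
      rw [Finset.sum_comm]
      refine Finset.sum_congr rfl fun n _ => ?_
      rw [Finset.sum_comm]
    rw [h3']
    refine Finset.sum_le_sum fun n _ => ?_
    refine Finset.sum_le_sum fun z hz => ?_
    by_cases hp : 2 * lg (F n z) < 3 * f ∧ Q n z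
    · rw [if_pos hp]
      refine le_trans (le_of_eq ?_) (Finset.single_le_sum (f := fun g =>
        (if lg (F n z) = g ∧ Q n z then (ℓ n)⁻¹ * m z else 0)) ?_
        (Finset.mem_range.2 (show lg (F n z) < (3 * f + 1) / 2 by omega)))
      · rw [if_pos ⟨rfl, hp.2⟩]
      · intro g _
        split_ifs
        · exact hw n z hz
        · exact le_rfl
    · rw [if_neg hp]
      refine Finset.sum_nonneg fun g _ => ?_
      split_ifs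
      · exact hw n z hz
      · exact le_rfl
  have h4 : ∑ g ∈ range ((3 * f + 1) / 2), ∑ n ∈ Icc n₀ N, ∑ z ∈ Z,
      (if lg (F n z) = g ∧ Q n z then (ℓ n)⁻¹ * m z else 0) ≤
      ∑ g ∈ range ((3 * f + 1) / 2), D * (4 / A) * 2 ^ g := by
    refine Finset.sum_le_sum fun g _ => ?_
    exact w3a hm hℓ hq hF H hD hA g (fun n z => lg (F n z) = g ∧ Q n z)
      (fun n _ _ z _ hp => ⟨hp.1, hp.2⟩)
  have h5 : ∑ g ∈ range ((3 * f + 1) / 2), D * (4 / A) * 2 ^ g ≤ D * (8 / A) * √8 ^ f := by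
    rw [← Finset.mul_sum]
    calc D * (4 / A) * ∑ g ∈ range ((3 * f + 1) / 2), (2 : ℝ) ^ g
        ≤ D * (4 / A) * (2 * √8 ^ f) :=
          mul_le_mul_of_nonneg_left ((geo2 _).trans (pow_s8 f)) (by positivity)
      _ = _ := by ring
  exact h1.trans (h2.trans (h3.trans (h4.trans h5)))

/-- Domination: the records of `n + 2 φ n`. -/
lemma dom (φ : ℕ → ℕ) {n₁ n₂ n : ℕ} (h01 : n₀ ≤ n₁) (h12 : n₁ ≤ n₂) (hn : n₂ ≤ n) (KB : ℕ)
    (hKB : 2 * n₁ + KB + 1 ≤ n₂) (hφ : ∀ k, n₀ ≤ k → k ≤ n → 2 * φ k ≤ KB + k) :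
    ∃ k, n₁ ≤ k ∧ k ≤ n ∧ n ≤ k + 2 * φ k ∧ ∀ j, n₀ ≤ j → j < k → j + 2 * φ j < k + 2 * φ k := by
  classical
  have hex : ∃ k, n₀ ≤ k ∧ n + 2 * φ n ≤ k + 2 * φ k := ⟨n, by omega, le_rfl⟩
  set k := Nat.find hex with hk
  have hk1 : n₀ ≤ k ∧ n + 2 * φ n ≤ k + 2 * φ k := Nat.find_spec hex
  have hkn : k ≤ n := Nat.find_min' hex ⟨by omega, le_rfl⟩
  have h3 := hφ k hk1.1 hkn
  refine ⟨k, ?_, hkn, by omega, ?_⟩
  · by_contra hlt
    omega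
  · intro j hj hjk
    have := Nat.find_min hex hjk
    have h5 : ¬ (n + 2 * φ n ≤ j + 2 * φ j) := fun h' => this ⟨hj, h'⟩
    omega

/-- Summing over the dominated indices. -/
lemma domsum (w : ℕ → ℝ) (hw : ∀ n, 0 ≤ w n) (hanti : ∀ k n, k ≤ n → w n ≤ w k) (φ : ℕ → ℕ)
    {n₁ n₂ : ℕ} (h01 : n₀ ≤ n₁) (h12 : n₁ ≤ n₂) (KB : ℕ)
    (hKB : 2 * n₁ + KB + 1 ≤ n₂) (hφ : ∀ k, n₀ ≤ k → k ≤ N → 2 * φ k ≤ KB + k)
    (U : ℕ → Prop) [DecidablePred U]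
    (hU : ∀ k, (∀ j, n₀ ≤ j → j < k → j + 2 * φ j < k + 2 * φ k) → U k) :
    ∑ n ∈ Icc n₂ N, w n ≤ ∑ n ∈ Icc n₁ N, (if U n then (2 * (φ n : ℝ) + 1) * w n else 0) := by
  classical
  have h1 : ∑ n ∈ Icc n₂ N, w n ≤ ∑ n ∈ Icc n₂ N, ∑ k ∈ Icc n₁ N,
      (if U k ∧ k ≤ n ∧ n ≤ k + 2 * φ k then w k else 0) := by
    refine Finset.sum_le_sum fun n hn => ?_
    rw [Finset.mem_Icc] at hn
    obtain ⟨k, hk1, hk2, hk3, hk4⟩ := dom (n₀ := n₀) φ h01 h12 hn.1 KB hKB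
      (fun k h h' => hφ k h (by omega))
    have h2 : (if U k ∧ k ≤ n ∧ n ≤ k + 2 * φ k then w k else 0) ≤
        ∑ k ∈ Icc n₁ N, (if U k ∧ k ≤ n ∧ n ≤ k + 2 * φ k then w k else 0) := by
      refine Finset.single_le_sum (f := fun k => (if U k ∧ k ≤ n ∧ n ≤ k + 2 * φ k then w k
        else 0)) ?_ (Finset.mem_Icc.2 ⟨hk1, by omega⟩)
      intro j _
      split_ifs
      · exact hw j
      · exact le_rfl
    refine le_trans ?_ h2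
    rw [if_pos ⟨hU k hk4, hk2, hk3⟩]
    exact hanti k n hk2
  refine h1.trans ?_
  rw [Finset.sum_comm]
  refine Finset.sum_le_sum fun k _ => ?_
  by_cases hk : U k
  · rw [if_pos hk]
    have h3 : ∑ n ∈ Icc n₂ N, (if U k ∧ k ≤ n ∧ n ≤ k + 2 * φ k then w k else 0) =
        (((Icc n₂ N).filter (fun n => U k ∧ k ≤ n ∧ n ≤ k + 2 * φ k)).card : ℝ) * w k := by
      rw [← Finset.sum_filter, Finset.sum_const, nsmul_eq_mul]
    rw [h3]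
    refine mul_le_mul_of_nonneg_right ?_ (hw k)
    have h4 : ((Icc n₂ N).filter (fun n => U k ∧ k ≤ n ∧ n ≤ k + 2 * φ k)) ⊆
        Icc k (k + 2 * φ k) := by
      intro n hn
      simp only [Finset.mem_filter, Finset.mem_Icc] at hn ⊢
      exact hn.2.2
    have h5 := Finset.card_le_card h4
    rw [Nat.card_Icc] at h5
    have h6 : ((Icc n₂ N).filter (fun n => U k ∧ k ≤ n ∧ n ≤ k + 2 * φ k)).card ≤
        2 * φ k + 1 := by omega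
    exact_mod_cast h6
  · rw [if_neg hk]
    refine le_of_eq (Finset.sum_eq_zero fun n _ => ?_)
    rw [if_neg (fun h => hk h.1)]

/-- All events of one class. -/
lemma cls (hm : ∀ z ∈ Z, 0 ≤ m z) (hℓ : ∀ n, 0 < ℓ n) (hmon : Monotone ℓ)
    (hq : ∀ n k z, 0 ≤ q n k z)
    (hF : ∀ n, n₀ ≤ n → n ≤ N → ∀ z ∈ Z, 1 ≤ F n z)
    (H : ∀ k f : ℕ, ∑ n ∈ Finset.Icc (max n₀ k) N, (ℓ n)⁻¹ *
      ∑ z ∈ Z with 2 ^ f ≤ F n z ∧ F n z < 2 ^ (f + 1), m z * q n k z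
        ≤ D * max 1 (2 ^ f / 2 ^ k)) (hD : 0 ≤ D) {c : ℝ} (hc : 0 < c) (f₀ : ℕ) {n₁ : ℕ}
    (h01 : n₀ ≤ n₁) (a : ℕ → α → ℝ)
    (ha : ∀ n z, a n z = ∑ k ∈ Finset.range (n + 1), (3 / 4 : ℝ) ^ k * q n k z)
    (h8 : ∀ n, n₁ ≤ n → n ≤ N → ∀ z ∈ Z, ∀ f : ℕ, f₀ ≤ f → 2 ^ f ≤ F n z → F n z < 2 ^ (f + 1) →
      n₀ + f ≤ n ∧
      (c * 2 ^ f ≤ ∑ j ∈ Finset.range (f + 1), √(q n j z) ∨
        c * 4 ^ f ≤ ∑ j ∈ Finset.Ico (f + 1) (n + 1), (3 / 4 : ℝ) ^ (j - (f + 1)) * q n j z ∨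
        c * 4 ^ f ≤ F (n - f) z + a (n - f) z))
    (U : ℕ → α → Prop) [∀ n z, Decidable (U n z)]
    (hU : ∀ n z, U n z → ∀ j, n₀ ≤ j → j < n → j + 2 * lg (F j z) < n + 2 * lg (F n z))
    {f : ℕ} (hf0 : f₀ ≤ f) (hf1 : 1 ≤ f) (hf2 : 8 ≤ c ^ 2 * 2 ^ f) :
    ∑ n ∈ Icc n₁ N, ∑ z ∈ Z, (if U n z ∧ lg (F n z) = f then (ℓ n)⁻¹ * m z else 0) ≤
      D * (2 * (f + 1) / c ^ 2 * (1 / 2) ^ f + 4 / c * (1 / 4) ^ f +
        8 / (c / 2 * 4 ^ f) * √8 ^ f) := by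
  classical
  set P1 : ℕ → α → Prop := fun n z => lg (F n z) = f ∧ f ≤ n ∧
      c * 2 ^ f ≤ ∑ j ∈ Finset.range (f + 1), √(q n j z) with hP1
  set P2 : ℕ → α → Prop := fun n z => lg (F n z) = f ∧
      c * 4 ^ f ≤ ∑ j ∈ Finset.Ico (f + 1) (n + 1), (3 / 4 : ℝ) ^ (j - (f + 1)) * q n j z with hP2
  set P3 : ℕ → α → Prop := fun n z => n₀ + f ≤ n ∧ 2 * lg (F (n - f) z) < 3 * f ∧
      c / 2 * 4 ^ f ≤ ∑ k ∈ Finset.range (n - f + 1), (3 / 4 : ℝ) ^ k * q (n - f) k z with hP3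
  have hw : ∀ n, ∀ z ∈ Z, 0 ≤ (ℓ n)⁻¹ * m z := fun n z hz =>
    mul_nonneg (inv_nonneg.2 (hℓ n).le) (hm z hz)
  have e1 := w1 hm hℓ hq hF H hD hc n₁ f h01 P1 (fun n _ _ z _ hp => hp)
  have e2 := w2 hm hℓ hq hF H hD hc n₁ f h01 P2 (fun n _ _ z _ hp => hp)
  have e3 := w3 hm hℓ hmon hq hF H hD (A := c / 2 * 4 ^ f) (by positivity) n₁ f P3
    (fun n _ _ z _ hp => hp)
  have key : ∑ n ∈ Icc n₁ N, ∑ z ∈ Z, (if U n z ∧ lg (F n z) = f then (ℓ n)⁻¹ * m z else 0) ≤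
      ∑ n ∈ Icc n₁ N, ∑ z ∈ Z, (if P1 n z then (ℓ n)⁻¹ * m z else 0) +
      ∑ n ∈ Icc n₁ N, ∑ z ∈ Z, (if P2 n z then (ℓ n)⁻¹ * m z else 0) +
      ∑ n ∈ Icc n₁ N, ∑ z ∈ Z, (if P3 n z then (ℓ n)⁻¹ * m z else 0) := by
    simp only [← Finset.sum_add_distrib]
    refine Finset.sum_le_sum fun n hn => Finset.sum_le_sum fun z hz => ?_
    rw [Finset.mem_Icc] at hn
    have hwz := hw n z hz
    have n1 : 0 ≤ (if P1 n z then (ℓ n)⁻¹ * m z else 0) := by split_ifs; exacts [hwz, le_rfl]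
    have n2 : 0 ≤ (if P2 n z then (ℓ n)⁻¹ * m z else 0) := by split_ifs; exacts [hwz, le_rfl]
    have n3 : 0 ≤ (if P3 n z then (ℓ n)⁻¹ * m z else 0) := by split_ifs; exacts [hwz, le_rfl]
    by_cases hu : U n z ∧ lg (F n z) = f
    · rw [if_pos hu]
      have hF1 := hF n (by omega) hn.2 z hz
      obtain ⟨hl1, hl2⟩ := (lg_iff hF1).1 hu.2
      obtain ⟨g1, g2⟩ := h8 n hn.1 hn.2 z hz f hf0 hl1 hl2
      rcases g2 with g2 | g2 | g2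
      · have : P1 n z := ⟨hu.2, by omega, g2⟩
        rw [if_pos this]
        linarith
      · have : P2 n z := ⟨hu.2, g2⟩
        rw [if_pos this]
        linarith
      · have h10 := hU n z hu.1 (n - f) (by omega) (by omega)
        rw [hu.2] at h10
        have h11 : 2 * lg (F (n - f) z) < 3 * f := by omega
        have h12 := hF (n - f) (by omega) (by omega) z hz
        have h13 := lt_lg _ h12
        have h14 : F (n - f) z ≤ c / 2 * 4 ^ f := by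
          refine h13.le.trans ?_
          refine (pow_le_pow_iff_left₀ (by positivity) (by positivity) two_ne_zero).1 ?_
          calc ((2 : ℝ) ^ (lg (F (n - f) z) + 1)) ^ 2 = 2 ^ (2 * lg (F (n - f) z) + 2) := by
                rw [← pow_mul]; ring_nf
            _ ≤ 2 ^ (3 * f + 1) := pow_le_pow_right₀ (by norm_num) (by omega)
            _ = 2 * 8 ^ f := by rw [pow_add, pow_mul]; norm_num; ring
            _ = (8 * 8 ^ f) / 4 := by ring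
            _ ≤ ((c ^ 2 * 2 ^ f) * 8 ^ f) / 4 := by gcongr
            _ = (c / 2 * 4 ^ f) ^ 2 := by
                have h4 : ((4 : ℝ) ^ f) ^ 2 = 2 ^ f * 8 ^ f := by
                  rw [← pow_mul, mul_comm f 2, pow_mul, ← mul_pow]; norm_num
                rw [mul_pow, h4]; ring
        have h15 : c / 2 * 4 ^ f ≤ a (n - f) z := by
          have : c * 4 ^ f = c / 2 * 4 ^ f + c / 2 * 4 ^ f := by ring
          linarith
        rw [ha] at h15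
        have : P3 n z := ⟨g1, h11, h15⟩
        rw [if_pos this]
        linarith
    · rw [if_neg hu]
      linarith
  calc _ ≤ _ := key
    _ ≤ D * (2 * (f + 1) / c ^ 2 * (1 / 2) ^ f) + D * (4 / c * (1 / 4) ^ f) +
        D * (8 / (c / 2 * 4 ^ f)) * √8 ^ f := add_le_add (add_le_add e1 e2) e3
    _ = _ := by ring

end

lemma summ1 (r : ℝ) (h0 : 0 ≤ r) (h1 : r < 1) (A B C : ℝ) :
    Summable fun f : ℕ => (A * (f : ℝ) ^ 2 + B * f + C) * r ^ f := by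
  have hr : ‖r‖ < 1 := by rw [Real.norm_eq_abs, abs_of_nonneg h0]; exact h1
  have s2 := (summable_pow_mul_geometric_of_norm_lt_one 2 hr).mul_left A
  have s1 := (summable_pow_mul_geometric_of_norm_lt_one 1 hr).mul_left B
  have s0 := (summable_geometric_of_norm_lt_one hr).mul_left C
  refine ((s2.add s1).add s0).congr fun f => ?_
  ring

/-- The majorant. -/
noncomputable def gg (c : ℝ) (f : ℕ) : ℝ :=
  (2 * (f : ℝ) + 1) * (2 * (f + 1) / c ^ 2 * (1 / 2) ^ f + 4 / c * (1 / 4) ^ f +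
        8 / (c / 2 * 4 ^ f) * √8 ^ f)

lemma gg_nonneg {c : ℝ} (hc : 0 < c) (f : ℕ) : 0 ≤ gg c f := by
  unfold gg; positivity

lemma gg_summable {c : ℝ} (hc : 0 < c) : Summable (gg c) := by
  have h8 : √8 / 4 < 1 := by
    rw [div_lt_one (by norm_num)]
    rw [Real.sqrt_lt' (by norm_num)]
    norm_num
  have s1 := summ1 (1 / 2) (by norm_num) (by norm_num) (4 / c ^ 2) (6 / c ^ 2) (2 / c ^ 2)
  have s2 := summ1 (1 / 4) (by norm_num) (by norm_num) 0 (8 / c) (4 / c)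
  have s3 := summ1 (√8 / 4) (by positivity) h8 0 (32 / c) (16 / c)
  refine ((s1.add s2).add s3).congr fun f => ?_
  unfold gg
  rw [div_pow (√8) 4 f]
  have h4 : (4 : ℝ) ^ f ≠ 0 := by positivity
  field_simp
  ring

/-- The final combinatorics. -/
theorem t_COMB : Pool.Agent.K1H52.S_COMB := by
  classical
  intro η c f₀ hη hc
  obtain ⟨f₁, hf10, hf11, hf12⟩ : ∃ f₁ : ℕ, f₀ ≤ f₁ ∧ 1 ≤ f₁ ∧ 8 ≤ c ^ 2 * 2 ^ f₁ := by
    obtain ⟨k, hk⟩ := pow_unbounded_of_one_lt (8 / c ^ 2) (by norm_num : (1 : ℝ) < 2)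
    refine ⟨max (max f₀ 1) k, by omega, by omega, ?_⟩
    have h1 : (2 : ℝ) ^ k ≤ 2 ^ (max (max f₀ 1) k) :=
      pow_le_pow_right₀ (by norm_num) (le_max_right _ _)
    rw [div_lt_iff₀ (by positivity)] at hk
    nlinarith [sq_nonneg c]
  have hf12' : ∀ f, f₁ ≤ f → 8 ≤ c ^ 2 * 2 ^ f := fun f hf => hf12.trans
    (mul_le_mul_of_nonneg_left (pow_le_pow_right₀ (by norm_num) hf) (by positivity))
  set C : ℝ := ∑' f, gg c f + ∑ f ∈ range f₁, (2 * (f : ℝ) + 1) * (2 ^ f / η) + 1 with hCdef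
  have hC0 : 0 ≤ ∑' f, gg c f := tsum_nonneg (gg_nonneg hc)
  have hC1 : 0 ≤ ∑ f ∈ range f₁, (2 * (f : ℝ) + 1) * (2 ^ f / η) :=
    Finset.sum_nonneg fun f _ => by positivity
  refine ⟨C, by linarith, ?_⟩
  intro B n₀ n₁ h01
  obtain ⟨KB, hKB⟩ := pow_unbounded_of_one_lt B (by norm_num : (1 : ℝ) < 2)
  refine ⟨2 * n₁ + KB + 1, by omega, ?_⟩
  intro α Z m ℓ N F a q D hm hℓ hmon hD hq ha h5 hF hFB h8 h9
  set U : ℕ → α → Prop := fun n z =>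
    ∀ j, n₀ ≤ j → j < n → j + 2 * lg (F j z) < n + 2 * lg (F n z) with hU
  have hw : ∀ n, ∀ z ∈ Z, 0 ≤ (ℓ n)⁻¹ * m z := fun n z hz =>
    mul_nonneg (inv_nonneg.2 (hℓ n).le) (hm z hz)
  -- step A
  have hA : (∑ z ∈ Z, m z) * ∑ n ∈ Icc (2 * n₁ + KB + 1) N, (ℓ n)⁻¹ ≤
      ∑ z ∈ Z, ∑ n ∈ Icc n₁ N,
        (if U n z then (2 * (lg (F n z) : ℝ) + 1) * ((ℓ n)⁻¹ * m z) else 0) := by
    rw [Finset.sum_mul]
    refine Finset.sum_le_sum fun z hz => ?_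
    rw [Finset.mul_sum]
    have h1 : ∑ n ∈ Icc (2 * n₁ + KB + 1) N, m z * (ℓ n)⁻¹ =
        ∑ n ∈ Icc (2 * n₁ + KB + 1) N, (ℓ n)⁻¹ * m z :=
      Finset.sum_congr rfl fun n _ => mul_comm _ _
    rw [h1]
    refine domsum (n₀ := n₀) (fun n => (ℓ n)⁻¹ * m z) (fun n => hw n z hz) ?_
      (fun n => lg (F n z)) h01 (by omega) KB le_rfl ?_ (fun n => U n z) (fun k hk => hk)
    · intro k n hkn
      exact mul_le_mul_of_nonneg_right (inv_anti₀ (hℓ _) (hmon hkn)) (hm z hz)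
    · intro k hk1 hk2
      have h2 := hF k hk1 hk2 z hz
      have h3 := lg_le h2
      have h4 := hFB k hk1 hk2 z hz
      have h6 : (2 : ℝ) ^ (2 * lg (F k z)) ≤ 2 ^ (KB + k) := by
        calc (2 : ℝ) ^ (2 * lg (F k z)) = (2 ^ lg (F k z)) ^ 2 := by
              rw [← pow_mul, mul_comm]
          _ ≤ F k z ^ 2 := pow_le_pow_left₀ (by positivity) h3 2
          _ ≤ B * 2 ^ k := h4
          _ ≤ 2 ^ KB * 2 ^ k := mul_le_mul_of_nonneg_right hKB.le (by positivity)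
          _ = 2 ^ (KB + k) := by rw [pow_add]
      exact (pow_le_pow_iff_right₀ (by norm_num : (1 : ℝ) < 2)).1 h6
  refine hA.trans ?_
  rw [Finset.sum_comm]
  -- step B
  set M : ℕ := (∑ n ∈ Icc n₁ N, ∑ z ∈ Z, lg (F n z)) + 1 with hM
  have hB : ∑ n ∈ Icc n₁ N, ∑ z ∈ Z,
        (if U n z then (2 * (lg (F n z) : ℝ) + 1) * ((ℓ n)⁻¹ * m z) else 0) ≤
      ∑ f ∈ range M, (2 * (f : ℝ) + 1) * ∑ n ∈ Icc n₁ N, ∑ z ∈ Z,
        (if U n z ∧ lg (F n z) = f then (ℓ n)⁻¹ * m z else 0) := by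
    have h1 : ∑ f ∈ range M, (2 * (f : ℝ) + 1) * ∑ n ∈ Icc n₁ N, ∑ z ∈ Z,
        (if U n z ∧ lg (F n z) = f then (ℓ n)⁻¹ * m z else 0) =
        ∑ n ∈ Icc n₁ N, ∑ z ∈ Z, ∑ f ∈ range M, (2 * (f : ℝ) + 1) *
        (if U n z ∧ lg (F n z) = f then (ℓ n)⁻¹ * m z else 0) := by
      simp_rw [Finset.mul_sum]
      rw [Finset.sum_comm]
      refine Finset.sum_congr rfl fun n _ => ?_
      rw [Finset.sum_comm]
    rw [h1]
    refine Finset.sum_le_sum fun n hn => Finset.sum_le_sum fun z hz => ?_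
    have h0 : ∀ f ∈ range M, 0 ≤ (2 * (f : ℝ) + 1) *
        (if U n z ∧ lg (F n z) = f then (ℓ n)⁻¹ * m z else 0) := by
      intro f _
      refine mul_nonneg (by positivity) ?_
      split_ifs
      · exact hw n z hz
      · exact le_rfl
    by_cases hu : U n z
    · rw [if_pos hu]
      have hlt : lg (F n z) < M := by
        have h2 : lg (F n z) ≤ ∑ z ∈ Z, lg (F n z) :=
          Finset.single_le_sum (f := fun z => lg (F n z)) (fun _ _ => Nat.zero_le _) hz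
        have h3 : ∑ z ∈ Z, lg (F n z) ≤ ∑ n ∈ Icc n₁ N, ∑ z ∈ Z, lg (F n z) :=
          Finset.single_le_sum (f := fun n => ∑ z ∈ Z, lg (F n z)) (fun _ _ => Nat.zero_le _) hn
        omega
      refine le_trans (le_of_eq ?_) (Finset.single_le_sum h0 (Finset.mem_range.2 hlt))
      rw [if_pos ⟨hu, rfl⟩]
    · rw [if_neg hu]
      exact Finset.sum_nonneg h0
  refine hB.trans ?_
  -- step C
  have hCf : ∀ f ∈ range M, (2 * (f : ℝ) + 1) * ∑ n ∈ Icc n₁ N, ∑ z ∈ Z,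
        (if U n z ∧ lg (F n z) = f then (ℓ n)⁻¹ * m z else 0) ≤
      D * (gg c f + (if f < f₁ then (2 * (f : ℝ) + 1) * (2 ^ f / η) else 0)) := by
    intro f _
    have hp : (0 : ℝ) ≤ 2 * (f : ℝ) + 1 := by positivity
    by_cases hf : f < f₁
    · rw [if_pos hf]
      have h1 := w0 hm hℓ hq hF h9 hη h5 n₁ f h01 (fun n z => U n z ∧ lg (F n z) = f)
        (fun n _ _ z _ h => h.2)
      calc _ ≤ (2 * (f : ℝ) + 1) * (D * (2 ^ f / η)) := mul_le_mul_of_nonneg_left h1 hp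
        _ = D * ((2 * (f : ℝ) + 1) * (2 ^ f / η)) := by ring
        _ ≤ _ := mul_le_mul_of_nonneg_left (by linarith [gg_nonneg hc f]) hD
    · rw [if_neg hf, add_zero]
      have h1 := cls hm hℓ hmon hq hF h9 hD hc f₀ h01 a ha h8 U (fun n z h => h)
        (f := f) (by omega) (by omega) (hf12' f (by omega))
      calc _ ≤ (2 * (f : ℝ) + 1) * (D * (2 * (f + 1) / c ^ 2 * (1 / 2) ^ f +
            4 / c * (1 / 4) ^ f + 8 / (c / 2 * 4 ^ f) * √8 ^ f)) :=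
            mul_le_mul_of_nonneg_left h1 hp
        _ = D * gg c f := by unfold gg; ring
  refine (Finset.sum_le_sum hCf).trans ?_
  rw [← Finset.mul_sum, mul_comm C D]
  refine mul_le_mul_of_nonneg_left ?_ hD
  rw [Finset.sum_add_distrib]
  have h1 : ∑ f ∈ range M, gg c f ≤ ∑' f, gg c f :=
    (gg_summable hc).sum_le_tsum _ (fun f _ => gg_nonneg hc f)
  have h2 : ∑ f ∈ range M, (if f < f₁ then (2 * (f : ℝ) + 1) * (2 ^ f / η) else 0) ≤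
      ∑ f ∈ range f₁, (2 * (f : ℝ) + 1) * (2 ^ f / η) := by
    rw [← Finset.sum_filter]
    refine Finset.sum_le_sum_of_subset_of_nonneg ?_ (fun f _ _ => by positivity)
    intro f hf
    simp only [Finset.mem_filter, Finset.mem_range] at hf ⊢
    exact hf.2
  linarith

end Pool.Agent.K1H72.NS.Comb
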