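import Pool.Agent.K1H52.Sts

/-!
The embedding at a fixed time (auxiliary lemma of the project of helper52): a Schur test.
-/

set_option autoImplicit false

open Finset MeasureTheory Metric
open scoped ENNReal

namespace Pool.Agent.K1H72.NS.Emb

open Pool.Agent.K1H52 (V3)

lemma geo12 (n : ℕ) : ∑ i ∈ range n, (1 / 2 : ℝ) ^ i ≤ 2 := by
  have h : ∑ i ∈ range n, (1 / 2 : ℝ) ^ i = 2 * (1 - (1 / 2) ^ n) := by
    induction n with
    | zero => simp
    | succ n ih => rw [Finset.sum_range_succ, ih, pow_succ]; ring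
  rw [h]
  have : (0 : ℝ) ≤ (1 / 2) ^ n := by positivity
  linarith

lemma geoInj (L : Finset ℤ) (g : ℤ → ℕ) (hg : Set.InjOn g L) :
    ∑ l ∈ L, (1 / 2 : ℝ) ^ g l ≤ 2 := by
  rw [← Finset.sum_image (f := fun n => (1 / 2 : ℝ) ^ n) (fun a ha b hb => hg ha hb)]
  refine le_trans (Finset.sum_le_sum_of_subset_of_nonneg (t := range ((L.image g).sup id + 1))
    ?_ (fun _ _ _ => by positivity)) (geo12 _)
  intro n hn
  rw [Finset.mem_range]
  exact Nat.lt_succ_of_le (Finset.le_sup (f := id) hn)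

lemma zp {l e : ℤ} (h : l ≤ e) : (2 : ℝ) ^ l / 2 ^ e = (1 / 2) ^ (e - l).toNat := by
  have h1 : ((e - l).toNat : ℤ) = e - l := Int.toNat_of_nonneg (by omega)
  rw [one_div, inv_pow, ← zpow_natCast (2 : ℝ), h1, ← zpow_neg, ← zpow_sub₀ (by norm_num)]
  congr 1
  ring

lemma geoZ (L : Finset ℤ) (e : ℤ) :
    ∑ l ∈ L, (if l ≤ e then (2 : ℝ) ^ l / 2 ^ e else 2 ^ e / 2 ^ l) ≤ 4 := by
  rw [Finset.sum_ite]
  have h1 : ∑ l ∈ L with l ≤ e, (2 : ℝ) ^ l / 2 ^ e ≤ 2 := by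
    refine le_trans (le_of_eq (Finset.sum_congr rfl fun l hl => zp (Finset.mem_filter.1 hl).2)) ?_
    refine geoInj _ (fun l => (e - l).toNat) ?_
    intro a ha b hb hab
    simp only [Finset.coe_filter, Set.mem_ofPred_eq] at ha hb
    simp only at hab
    omega
  have h2 : ∑ l ∈ L with ¬ l ≤ e, (2 : ℝ) ^ e / 2 ^ l ≤ 2 := by
    refine le_trans (le_of_eq (Finset.sum_congr rfl fun l hl =>
      zp (by have := (Finset.mem_filter.1 hl).2; omega))) ?_
    refine geoInj _ (fun l => (l - e).toNat) ?_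
    intro a ha b hb hab
    simp only [Finset.coe_filter, Set.mem_ofPred_eq] at ha hb
    simp only at hab
    omega
  linarith

section

variable {ι : Type} (y : ι → V3) (e : ι → ℤ)

/-- The kernel. -/
noncomputable def ker (i j : ι) : ℝ :=
  if ‖y j - y i‖ < 2 * max ((2 : ℝ) ^ e i) (2 ^ e j) then
    min ((2 : ℝ) ^ e i) (2 ^ e j) / max ((2 : ℝ) ^ e i) (2 ^ e j) ^ 2 else 0

lemma ker_symm (i j : ι) : ker y e i j = ker y e j i := by
  unfold ker
  rw [norm_sub_rev, max_comm, min_comm]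

lemma ker_nonneg (i j : ι) : 0 ≤ ker y e i j := by
  unfold ker
  split_ifs
  · positivity
  · exact le_rfl

lemma row (I : Finset ι) (w : ι → ℝ) (K : ℝ) (hK : 0 ≤ K)
    (H : ∀ (l : ℤ) (ρ : ℝ) (y₀ : V3), (2 : ℝ) ^ l ≤ ρ →
      (∑ i ∈ I with e i = l ∧ ‖y i - y₀‖ < 2 * ρ, w i) ≤ K * ρ) (i : ι) :
    ∑ j ∈ I, w j * ker y e i j ≤ 4 * K := by
  classical
  rw [← Finset.sum_fiberwise_of_maps_to (t := I.image e) (g := e)
    (fun j hj => Finset.mem_image_of_mem e hj)]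
  have key : ∀ l ∈ I.image e, ∑ j ∈ I with e j = l, w j * ker y e i j ≤
      K * (if l ≤ e i then (2 : ℝ) ^ l / 2 ^ e i else 2 ^ e i / 2 ^ l) := by
    intro l _
    have hl0 : (0 : ℝ) < 2 ^ l := by positivity
    have hi0 : (0 : ℝ) < 2 ^ e i := by positivity
    split_ifs with hl
    · have hle : (2 : ℝ) ^ l ≤ 2 ^ e i := zpow_le_zpow_right₀ (by norm_num) hl
      calc ∑ j ∈ I with e j = l, w j * ker y e i j
          = ∑ j ∈ I with e j = l ∧ ‖y j - y i‖ < 2 * 2 ^ e i, w j * (2 ^ l / (2 ^ e i) ^ 2) := by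
            rw [← Finset.filter_filter, Finset.sum_filter (p := fun j => ‖y j - y i‖ < 2 * 2 ^ e i)]
            refine Finset.sum_congr rfl fun j hj => ?_
            have hj2 := (Finset.mem_filter.1 hj).2
            unfold ker
            rw [hj2, max_eq_left hle, min_eq_right hle]
            split_ifs
            · rfl
            · rw [mul_zero]
        _ = (∑ j ∈ I with e j = l ∧ ‖y j - y i‖ < 2 * 2 ^ e i, w j) * (2 ^ l / (2 ^ e i) ^ 2) := by
            rw [Finset.sum_mul]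
        _ ≤ (K * 2 ^ e i) * (2 ^ l / (2 ^ e i) ^ 2) :=
            mul_le_mul_of_nonneg_right (H l _ (y i) hle) (by positivity)
        _ = K * (2 ^ l / 2 ^ e i) := by field_simp
    · have hle : (2 : ℝ) ^ e i ≤ 2 ^ l := zpow_le_zpow_right₀ (by norm_num) (by omega)
      calc ∑ j ∈ I with e j = l, w j * ker y e i j
          = ∑ j ∈ I with e j = l ∧ ‖y j - y i‖ < 2 * 2 ^ l, w j * (2 ^ e i / (2 ^ l) ^ 2) := by
            rw [← Finset.filter_filter, Finset.sum_filter (p := fun j => ‖y j - y i‖ < 2 * 2 ^ l)]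
            refine Finset.sum_congr rfl fun j hj => ?_
            have hj2 := (Finset.mem_filter.1 hj).2
            unfold ker
            rw [hj2, max_eq_right hle, min_eq_left hle]
            split_ifs
            · rfl
            · rw [mul_zero]
        _ = (∑ j ∈ I with e j = l ∧ ‖y j - y i‖ < 2 * 2 ^ l, w j) * (2 ^ e i / (2 ^ l) ^ 2) := by
            rw [Finset.sum_mul]
        _ ≤ (K * 2 ^ l) * (2 ^ e i / (2 ^ l) ^ 2) :=
            mul_le_mul_of_nonneg_right (H l _ (y i) le_rfl) (by positivity)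
        _ = K * (2 ^ e i / 2 ^ l) := by field_simp
  refine (Finset.sum_le_sum key).trans ?_
  rw [← Finset.mul_sum, mul_comm 4 K]
  exact mul_le_mul_of_nonneg_left (geoZ _ _) hK

lemma pair {R r w v P Q V : ℝ} (hr : 0 < r) (hR : 0 < R) (hw : 0 ≤ w) (hv : 0 ≤ v)
    (hP : 0 ≤ P) (hQ : 0 ≤ Q) (hV : V ≤ 8 * r ^ 3) :
    w * (P / R ^ 4) * (v * (Q / r ^ 4)) * V ≤
      4 * (w * (P ^ 2 / R ^ 4) * v + v * (Q ^ 2 / r ^ 4) * w) * (r / R ^ 2) := by
  have h1 : w * (P / R ^ 4) * (v * (Q / r ^ 4)) * V ≤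
      w * (P / R ^ 4) * (v * (Q / r ^ 4)) * (8 * r ^ 3) :=
    mul_le_mul_of_nonneg_left hV (by positivity)
  have h2 : 4 * (w * (P ^ 2 / R ^ 4) * v + v * (Q ^ 2 / r ^ 4) * w) * (r / R ^ 2) -
      w * (P / R ^ 4) * (v * (Q / r ^ 4)) * (8 * r ^ 3) =
      4 * w * v / (R ^ 6 * r ^ 3) * (r ^ 2 * P - R ^ 2 * Q) ^ 2 := by
    field_simp
    ring
  have h3 : 0 ≤ 4 * w * v / (R ^ 6 * r ^ 3) * (r ^ 2 * P - R ^ 2 * Q) ^ 2 := by positivity
  linarith

lemma disc (I : Finset ι) (w : ι → ℝ) (hw : ∀ i, 0 ≤ w i) (K : ℝ) (hK : 0 ≤ K)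
    (H : ∀ (l : ℤ) (ρ : ℝ) (y₀ : V3), (2 : ℝ) ^ l ≤ ρ →
      (∑ i ∈ I with e i = l ∧ ‖y i - y₀‖ < 2 * ρ, w i) ≤ K * ρ)
    (P : ι → ℝ) (hP : ∀ i, 0 ≤ P i) (V : ι → ι → ℝ)
    (hV1 : ∀ i j, V i j ≤ 8 * (2 ^ e i) ^ 3) (hV1' : ∀ i j, V i j ≤ 8 * (2 ^ e j) ^ 3)
    (hV2 : ∀ i j, ¬ ‖y j - y i‖ < 2 * max ((2 : ℝ) ^ e i) (2 ^ e j) → V i j = 0) :
    ∑ i ∈ I, ∑ j ∈ I, (w i * (P i / (2 ^ e i) ^ 4)) * (w j * (P j / (2 ^ e j) ^ 4)) * V i j ≤
      32 * K * ∑ i ∈ I, w i * (P i ^ 2 / (2 ^ e i) ^ 4) := by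
  have key : ∀ i j, (w i * (P i / (2 ^ e i) ^ 4)) * (w j * (P j / (2 ^ e j) ^ 4)) * V i j ≤
      4 * (w i * (P i ^ 2 / (2 ^ e i) ^ 4) * w j + w j * (P j ^ 2 / (2 ^ e j) ^ 4) * w i) *
        ker y e i j := by
    intro i j
    have hi0 : (0 : ℝ) < 2 ^ e i := by positivity
    have hj0 : (0 : ℝ) < 2 ^ e j := by positivity
    by_cases hn : ‖y j - y i‖ < 2 * max ((2 : ℝ) ^ e i) (2 ^ e j)
    · unfold ker
      rw [if_pos hn]
      rcases le_total ((2 : ℝ) ^ e j) (2 ^ e i) with h | h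
      · rw [max_eq_left h, min_eq_right h]
        exact pair hj0 hi0 (hw i) (hw j) (hP i) (hP j) (hV1' i j)
      · rw [max_eq_right h, min_eq_left h]
        have := pair hi0 hj0 (hw j) (hw i) (hP j) (hP i) (hV1 i j)
        calc _ = w j * (P j / (2 ^ e j) ^ 4) * (w i * (P i / (2 ^ e i) ^ 4)) * V i j := by ring
          _ ≤ _ := this
          _ = _ := by ring
    · rw [hV2 i j hn, mul_zero]
      have := ker_nonneg y e i j
      have h1 := hw i
      have h2 := hw j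
      positivity
  refine (Finset.sum_le_sum fun i _ => Finset.sum_le_sum fun j _ => key i j).trans ?_
  have h1 : ∑ i ∈ I, ∑ j ∈ I, 4 * (w i * (P i ^ 2 / (2 ^ e i) ^ 4) * w j +
      w j * (P j ^ 2 / (2 ^ e j) ^ 4) * w i) * ker y e i j =
      8 * ∑ i ∈ I, w i * (P i ^ 2 / (2 ^ e i) ^ 4) * ∑ j ∈ I, w j * ker y e i j := by
    have h2 : ∑ i ∈ I, ∑ j ∈ I, w j * (P j ^ 2 / (2 ^ e j) ^ 4) * w i * ker y e i j =
        ∑ i ∈ I, ∑ j ∈ I, w i * (P i ^ 2 / (2 ^ e i) ^ 4) * w j * ker y e i j := by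
      rw [Finset.sum_comm]
      refine Finset.sum_congr rfl fun i _ => Finset.sum_congr rfl fun j _ => ?_
      rw [ker_symm]
    have h3 : ∑ i ∈ I, w i * (P i ^ 2 / (2 ^ e i) ^ 4) * ∑ j ∈ I, w j * ker y e i j =
        ∑ i ∈ I, ∑ j ∈ I, w i * (P i ^ 2 / (2 ^ e i) ^ 4) * w j * ker y e i j := by
      refine Finset.sum_congr rfl fun i _ => ?_
      rw [Finset.mul_sum]
      exact Finset.sum_congr rfl fun j _ => by ring
    rw [h3]
    have h4 : ∑ i ∈ I, ∑ j ∈ I, 4 * (w i * (P i ^ 2 / (2 ^ e i) ^ 4) * w j +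
        w j * (P j ^ 2 / (2 ^ e j) ^ 4) * w i) * ker y e i j =
        4 * (∑ i ∈ I, ∑ j ∈ I, w i * (P i ^ 2 / (2 ^ e i) ^ 4) * w j * ker y e i j) +
        4 * ∑ i ∈ I, ∑ j ∈ I, w j * (P j ^ 2 / (2 ^ e j) ^ 4) * w i * ker y e i j := by
      rw [Finset.mul_sum, Finset.mul_sum, ← Finset.sum_add_distrib]
      refine Finset.sum_congr rfl fun i _ => ?_
      rw [Finset.mul_sum, Finset.mul_sum, ← Finset.sum_add_distrib]
      exact Finset.sum_congr rfl fun j _ => by ring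
    rw [h4, h2]
    ring
  rw [h1]
  have h5 : ∑ i ∈ I, w i * (P i ^ 2 / (2 ^ e i) ^ 4) * ∑ j ∈ I, w j * ker y e i j ≤
      ∑ i ∈ I, w i * (P i ^ 2 / (2 ^ e i) ^ 4) * (4 * K) := by
    refine Finset.sum_le_sum fun i _ => ?_
    exact mul_le_mul_of_nonneg_left (row y e I w K hK H i)
      (mul_nonneg (hw i) (by positivity))
  rw [← Finset.sum_mul] at h5
  calc _ ≤ 8 * ((∑ i ∈ I, w i * (P i ^ 2 / (2 ^ e i) ^ 4)) * (4 * K)) := by linarith
    _ = _ := by ring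

end

/-- Cauchy-Schwarz, squared. -/
lemma cs (Ψ Φ : V3 → ℝ≥0∞) (hΨ : Measurable Ψ) (hΦ : Measurable Φ) :
    (∫⁻ x, Ψ x * Φ x) ^ 2 ≤ (∫⁻ x, Ψ x ^ 2) * ∫⁻ x, Φ x ^ 2 := by
  have h := ENNReal.lintegral_mul_le_Lp_mul_Lq (volume : Measure V3) Real.HolderConjugate.two_two
    hΨ.aemeasurable hΦ.aemeasurable
  simp only [Pi.mul_apply, ENNReal.rpow_two] at h
  have h2 : ∀ A : ℝ≥0∞, (A ^ (1 / (2 : ℝ))) ^ 2 = A := by
    intro A
    rw [← ENNReal.rpow_two, ← ENNReal.rpow_mul]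
    norm_num
  calc (∫⁻ x, Ψ x * Φ x) ^ 2
      ≤ ((∫⁻ x, Ψ x ^ 2) ^ (1 / (2 : ℝ)) * (∫⁻ x, Φ x ^ 2) ^ (1 / (2 : ℝ))) ^ 2 := by gcongr
    _ = _ := by rw [mul_pow, h2, h2]

lemma fin_of_sq (Ψ : V3 → ℝ≥0∞) (y : V3) {R : ℝ} (hR : 0 < R)
    (h : ∫⁻ x, Ψ x ^ 2 ≠ ⊤) : ∫⁻ x in ball y R, Ψ x ≠ ⊤ := by
  have h1 : ∫⁻ x in ball y R, Ψ x ≤ ∫⁻ x in ball y R, (1 + Ψ x ^ 2) := by
    refine lintegral_mono fun x => ?_
    rcases le_total (Ψ x) 1 with hx | hx
    · exact hx.trans le_self_add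
    · calc Ψ x = Ψ x * 1 := (mul_one _).symm
        _ ≤ Ψ x * Ψ x := by gcongr
        _ = Ψ x ^ 2 := (sq _).symm
        _ ≤ _ := le_add_self
  refine ne_top_of_le_ne_top ?_ h1
  rw [lintegral_add_left measurable_const]
  refine ENNReal.add_ne_top.2 ⟨?_, ?_⟩
  · rw [setLIntegral_const, one_mul, Real.volume_pi_ball y hR]
    exact ENNReal.ofReal_ne_top
  · exact ne_top_of_le_ne_top h (setLIntegral_le_lintegral _ _)

/-- The embedding at a fixed time. -/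
theorem t_EMB : Pool.Agent.K1H52.S_EMB := by
  classical
  refine ⟨32, by norm_num, ?_⟩
  intro ι I y e w K Ψ hK hΨ H
  have hR : ∀ i, (0 : ℝ) < 2 ^ e i := fun i => by positivity
  have hwi : ∀ i ∈ I, w i ≤ K * ENNReal.ofReal (2 ^ e i) := by
    intro i hi
    refine le_trans ?_ (H (e i) (2 ^ e i) (y i) le_rfl)
    refine Finset.single_le_sum (f := w) (fun _ _ => zero_le) ?_
    rw [Finset.mem_filter]
    refine ⟨hi, rfl, ?_⟩
    rw [sub_self, norm_zero]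
    have := hR i
    positivity
  by_cases hfin : ∫⁻ x, Ψ x ^ 2 = ⊤
  · by_cases hK0 : K = 0
    · refine le_trans (le_of_eq (Finset.sum_eq_zero fun i hi => ?_)) (zero_le)
      have := hwi i hi
      rw [hK0, zero_mul] at this
      rw [le_antisymm this (zero_le)]
      simp
    · rw [hfin, ENNReal.mul_top]
      · exact le_top
      · exact mul_ne_zero (by norm_num) hK0
  have hwtop : ∀ i ∈ I, w i ≠ ⊤ := fun i hi =>
    ne_top_of_le_ne_top (ENNReal.mul_ne_top hK ENNReal.ofReal_ne_top) (hwi i hi)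
  set w' : ι → ℝ := fun i => if i ∈ I then (w i).toReal else 0 with hw'
  have hw'0 : ∀ i, 0 ≤ w' i := by
    intro i
    simp only [hw']
    split_ifs
    · exact ENNReal.toReal_nonneg
    · exact le_rfl
  have hww' : ∀ i ∈ I, w i = ENNReal.ofReal (w' i) := by
    intro i hi
    simp only [hw', if_pos hi]
    rw [ENNReal.ofReal_toReal (hwtop i hi)]
  set P : ι → ℝ := fun i => (∫⁻ x in ball (y i) ((2 : ℝ) ^ (e i)), Ψ x).toReal with hP
  have hP0 : ∀ i, 0 ≤ P i := fun i => ENNReal.toReal_nonneg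
  have hPe : ∀ i, ∫⁻ x in ball (y i) ((2 : ℝ) ^ (e i)), Ψ x = ENNReal.ofReal (P i) := fun i =>
    (ENNReal.ofReal_toReal (fin_of_sq Ψ (y i) (hR i) hfin)).symm
  set a : ι → ℝ := fun i => w' i * (P i / (2 ^ e i) ^ 4) with ha
  have ha0 : ∀ i, 0 ≤ a i := fun i => mul_nonneg (hw'0 i) (div_nonneg (hP0 i) (by positivity))
  set S' : ℝ := ∑ i ∈ I, w' i * (P i ^ 2 / (2 ^ e i) ^ 4) with hS'
  have hS'0 : 0 ≤ S' := Finset.sum_nonneg fun i _ => mul_nonneg (hw'0 i) (by positivity)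
  -- the left side
  have hL : (∑ i ∈ I, w i * ENNReal.ofReal (((2 : ℝ) ^ (e i)) ^ 2) *
      ((∫⁻ x in ball (y i) ((2 : ℝ) ^ (e i)), Ψ x) / ENNReal.ofReal (((2 : ℝ) ^ (e i)) ^ 3)) ^ 2)
      = ENNReal.ofReal S' := by
    rw [hS', ENNReal.ofReal_sum_of_nonneg (fun i _ => mul_nonneg (hw'0 i) (by positivity))]
    refine Finset.sum_congr rfl fun i hi => ?_
    have hRi := hR i
    rw [hww' i hi, hPe i, ← ENNReal.ofReal_div_of_pos (by positivity),
      ← ENNReal.ofReal_pow (div_nonneg (hP0 i) (by positivity)),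
      ← ENNReal.ofReal_mul (hw'0 i), ← ENNReal.ofReal_mul (mul_nonneg (hw'0 i) (by positivity))]
    congr 1
    field_simp
  rw [hL]
  set Φ : V3 → ℝ≥0∞ := fun x =>
    ∑ i ∈ I, (ball (y i) ((2 : ℝ) ^ (e i))).indicator (fun _ => ENNReal.ofReal (a i)) x with hΦ
  have hΦm : Measurable Φ := Finset.measurable_sum _ fun i _ =>
    measurable_const.indicator measurableSet_ball
  have h1 : ∫⁻ x, Ψ x * Φ x = ENNReal.ofReal S' := by
    have h2 : ∀ i x, Ψ x * (ball (y i) ((2 : ℝ) ^ (e i))).indicator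
        (fun _ => ENNReal.ofReal (a i)) x =
        (ball (y i) ((2 : ℝ) ^ (e i))).indicator (fun x => Ψ x * ENNReal.ofReal (a i)) x := by
      intro i x
      by_cases hx : x ∈ ball (y i) ((2 : ℝ) ^ (e i))
      · rw [Set.indicator_of_mem hx, Set.indicator_of_mem hx]
      · rw [Set.indicator_of_notMem hx, Set.indicator_of_notMem hx, mul_zero]
    simp only [hΦ, Finset.mul_sum, h2]
    rw [lintegral_finsetSum _ (fun i _ => (hΨ.mul_const _).indicator measurableSet_ball),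
      hS', ENNReal.ofReal_sum_of_nonneg (fun i _ => mul_nonneg (hw'0 i) (by positivity))]
    refine Finset.sum_congr rfl fun i _ => ?_
    rw [lintegral_indicator measurableSet_ball, lintegral_mul_const _ hΨ, hPe i,
      ← ENNReal.ofReal_mul (hP0 i)]
    congr 1
    simp only [ha]
    ring
  set V : ι → ι → ℝ := fun i j =>
    (volume (ball (y i) ((2 : ℝ) ^ (e i)) ∩ ball (y j) ((2 : ℝ) ^ (e j)))).toReal with hV
  have hVfin : ∀ i j, volume (ball (y i) ((2 : ℝ) ^ (e i)) ∩ ball (y j) ((2 : ℝ) ^ (e j))) ≠ ⊤ :=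
    fun i j => ne_top_of_le_ne_top (measure_ball_lt_top (x := y i) (r := 2 ^ e i)).ne
      (measure_mono Set.inter_subset_left)
  have hvol : ∀ i, (volume (ball (y i) ((2 : ℝ) ^ (e i)))).toReal = 8 * (2 ^ e i) ^ 3 := by
    intro i
    have := hR i
    rw [Real.volume_pi_ball _ this, ENNReal.toReal_ofReal (by positivity), Fintype.card_fin,
      mul_pow]
    norm_num
  have hV1 : ∀ i j, V i j ≤ 8 * (2 ^ e i) ^ 3 := fun i j => by
    rw [← hvol i]
    exact ENNReal.toReal_mono (measure_ball_lt_top).ne (measure_mono Set.inter_subset_left)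
  have hV1' : ∀ i j, V i j ≤ 8 * (2 ^ e j) ^ 3 := fun i j => by
    rw [← hvol j]
    exact ENNReal.toReal_mono (measure_ball_lt_top).ne (measure_mono Set.inter_subset_right)
  have hV2 : ∀ i j, ¬ ‖y j - y i‖ < 2 * max ((2 : ℝ) ^ e i) (2 ^ e j) → V i j = 0 := by
    intro i j hn
    have : ball (y i) ((2 : ℝ) ^ (e i)) ∩ ball (y j) ((2 : ℝ) ^ (e j)) = ∅ := by
      rw [← Set.disjoint_iff_inter_eq_empty]
      refine ball_disjoint_ball ?_
      rw [dist_eq_norm, norm_sub_rev]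
      have h3 := le_max_left ((2 : ℝ) ^ e i) (2 ^ e j)
      have h4 := le_max_right ((2 : ℝ) ^ e i) (2 ^ e j)
      linarith
    simp only [hV, this, measure_empty, ENNReal.toReal_zero]
  have h3 : ∫⁻ x, Φ x ^ 2 = ENNReal.ofReal (∑ i ∈ I, ∑ j ∈ I, a i * a j * V i j) := by
    have h4 : ∀ x, Φ x ^ 2 = ∑ i ∈ I, ∑ j ∈ I,
        (ball (y i) ((2 : ℝ) ^ (e i)) ∩ ball (y j) ((2 : ℝ) ^ (e j))).indicator
          (fun _ => ENNReal.ofReal (a i * a j)) x := by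
      intro x
      rw [sq, hΦ]
      simp only [Finset.sum_mul_sum]
      refine Finset.sum_congr rfl fun i _ => Finset.sum_congr rfl fun j _ => ?_
      rw [ENNReal.ofReal_mul (ha0 i), Set.inter_indicator_mul]
    simp_rw [h4]
    rw [lintegral_finsetSum _ (fun i _ => Finset.measurable_sum _ fun j _ =>
      measurable_const.indicator (measurableSet_ball.inter measurableSet_ball)),
      ENNReal.ofReal_sum_of_nonneg (fun i _ => Finset.sum_nonneg fun j _ =>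
        mul_nonneg (mul_nonneg (ha0 i) (ha0 j)) ENNReal.toReal_nonneg)]
    refine Finset.sum_congr rfl fun i _ => ?_
    rw [lintegral_finsetSum _ (fun j _ =>
      measurable_const.indicator (measurableSet_ball.inter measurableSet_ball)),
      ENNReal.ofReal_sum_of_nonneg (fun j _ =>
        mul_nonneg (mul_nonneg (ha0 i) (ha0 j)) ENNReal.toReal_nonneg)]
    refine Finset.sum_congr rfl fun j _ => ?_
    rw [lintegral_indicator (measurableSet_ball.inter measurableSet_ball), setLIntegral_const,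
      ENNReal.ofReal_mul (mul_nonneg (ha0 i) (ha0 j)), ENNReal.ofReal_toReal (hVfin i j)]
  have hHr : ∀ (l : ℤ) (ρ : ℝ) (y₀ : V3), (2 : ℝ) ^ l ≤ ρ →
      (∑ i ∈ I with e i = l ∧ ‖y i - y₀‖ < 2 * ρ, w' i) ≤ K.toReal * ρ := by
    intro l ρ y₀ hl
    have hρ : 0 ≤ ρ := le_trans (by positivity) hl
    have h5 := H l ρ y₀ hl
    have h6 : (∑ i ∈ I with e i = l ∧ ‖y i - y₀‖ < 2 * ρ, w i) =
        ENNReal.ofReal (∑ i ∈ I with e i = l ∧ ‖y i - y₀‖ < 2 * ρ, w' i) := by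
      rw [ENNReal.ofReal_sum_of_nonneg (fun i _ => hw'0 i)]
      exact Finset.sum_congr rfl fun i hi => hww' i (Finset.mem_filter.1 hi).1
    rw [h6, ← ENNReal.ofReal_toReal hK, ← ENNReal.ofReal_mul ENNReal.toReal_nonneg] at h5
    exact (ENNReal.ofReal_le_ofReal_iff (mul_nonneg ENNReal.toReal_nonneg hρ)).1 h5
  have h7 := disc y e I w' hw'0 K.toReal ENNReal.toReal_nonneg hHr P hP0 V hV1 hV1' hV2
  have h8 := cs Ψ Φ hΨ hΦm
  rw [h1, h3] at h8
  have h9 : ENNReal.ofReal (∑ i ∈ I, ∑ j ∈ I, a i * a j * V i j) ≤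
      32 * K * ENNReal.ofReal S' := by
    refine (ENNReal.ofReal_le_ofReal h7).trans (le_of_eq ?_)
    rw [ENNReal.ofReal_mul (by positivity), ENNReal.ofReal_mul (by norm_num),
      ENNReal.ofReal_toReal hK, ENNReal.ofReal_ofNat]
  by_cases hS0 : ENNReal.ofReal S' = 0
  · rw [hS0]; exact zero_le
  · have h10 : ENNReal.ofReal S' * ENNReal.ofReal S' ≤
        (32 * K * ∫⁻ x, Ψ x ^ 2) * ENNReal.ofReal S' := by
      calc ENNReal.ofReal S' * ENNReal.ofReal S' = ENNReal.ofReal S' ^ 2 := (sq _).symm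
        _ ≤ _ := h8
        _ ≤ (∫⁻ x, Ψ x ^ 2) * (32 * K * ENNReal.ofReal S') := by gcongr
        _ = _ := by ring
    exact (ENNReal.mul_le_mul_iff_left hS0 ENNReal.ofReal_ne_top).1 h10

end Pool.Agent.K1H72.NS.Emb
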