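import Pool.Agent.K1H52.Sts

/-!
The finite Frostman lemma (auxiliary lemma of the project of helper52).
-/

set_option autoImplicit false

open Finset

namespace Pool.Agent.K1H72.NS

variable {α κ : Type} [DecidableEq κ]

/-- The conclusion of the finite Frostman lemma, for the generations in `[n, N]`. -/
def Good (c : ℕ → α → κ) (h : ℕ → ℝ) (n N : ℕ) (Z : Finset α) (m : α → ℝ)
    (P : Finset (ℕ × κ)) : Prop :=
  (∀ z, 0 ≤ m z) ∧
    (∀ j, n ≤ j → j ≤ N → ∀ q, ∑ z ∈ Z with c j z = q, m z ≤ h j) ∧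
    (∀ z ∈ Z, ∃ p ∈ P, c p.1 z = p.2) ∧
    (∀ p ∈ P, n ≤ p.1 ∧ p.1 ≤ N ∧ ∃ z ∈ Z, c p.1 z = p.2) ∧
    ∑ p ∈ P, h p.1 ≤ ∑ z ∈ Z, m z

/-- nested cells -/
def Nest (c : ℕ → α → κ) (Z : Finset α) : Prop :=
  ∀ j, ∀ z ∈ Z, ∀ z' ∈ Z, c (j + 1) z = c (j + 1) z' → c j z = c j z'

omit [DecidableEq κ] in
lemma nest_le {c : ℕ → α → κ} {Z : Finset α} (hn : Nest c Z) {n j : ℕ} (hnj : n ≤ j)
    {z z' : α} (hz : z ∈ Z) (hz' : z' ∈ Z) (h : c j z = c j z') : c n z = c n z' := by
  induction j, hnj using Nat.le_induction with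
  | base => exact h
  | succ j _ ih => exact ih (hn j z hz z' hz' h)

omit [DecidableEq κ] in
lemma sum_biUnion_le' {ι β : Type} [DecidableEq β] [DecidableEq ι] (s : Finset ι)
    (t : ι → Finset β) (f : β → ℝ) (hf : ∀ b, 0 ≤ f b) :
    ∑ p ∈ s.biUnion t, f p ≤ ∑ q ∈ s, ∑ p ∈ t q, f p := by
  induction s using Finset.induction_on with
  | empty => simp
  | insert a s ha ih =>
    rw [Finset.biUnion_insert, Finset.sum_insert ha]
    have h1 := Finset.sum_union_inter (s₁ := t a) (s₂ := s.biUnion t) (f := f)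
    have h2 : 0 ≤ ∑ x ∈ t a ∩ s.biUnion t, f x := Finset.sum_nonneg fun x _ => hf x
    linarith

lemma comb (c : ℕ → α → κ) (h : ℕ → ℝ) (n N : ℕ) (hh : ∀ j, 0 < h j) (Z : Finset α)
    (hnest : Nest c Z)
    (H : ∀ q, (Z.filter (fun z => c n z = q)).Nonempty →
      ∃ m P, Good c h n N (Z.filter (fun z => c n z = q)) m P) :
    ∃ m P, Good c h n N Z m P := by
  classical
  have H' : ∀ q, ∃ m P, Good c h n N (Z.filter (fun z => c n z = q)) m P := by
    intro q
    by_cases hq : (Z.filter (fun z => c n z = q)).Nonempty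
    · exact H q hq
    · rw [Finset.not_nonempty_iff_eq_empty] at hq
      refine ⟨fun _ => 0, ∅, ?_⟩
      rw [hq]
      refine ⟨fun _ => le_rfl, fun j _ _ q => by simpa using (hh j).le, by simp, by simp, by simp⟩
  choose m P hG using H'
  refine ⟨fun z => m (c n z) z, (Z.image (c n)).biUnion P, ?_, ?_, ?_, ?_, ?_⟩
  · intro z
    exact (hG (c n z)).1 z
  · intro j hnj hjN q
    by_cases hq : (Z.filter (fun z => c j z = q)).Nonempty
    · obtain ⟨z0, hz0⟩ := hq
      rw [Finset.mem_filter] at hz0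
      have h1 := (hG (c n z0)).2.1 j hnj hjN q
      refine le_trans (le_of_eq ?_) h1
      have h2 : (Z.filter (fun z => c j z = q)) =
          ((Z.filter (fun z => c n z = c n z0)).filter (fun z => c j z = q)) := by
        ext a
        simp only [Finset.mem_filter]
        constructor
        · intro ha
          exact ⟨⟨ha.1, nest_le hnest hnj ha.1 hz0.1 (by rw [ha.2, hz0.2])⟩, ha.2⟩
        · intro ha
          exact ⟨ha.1.1, ha.2⟩
      rw [h2]
      refine Finset.sum_congr rfl fun a ha => ?_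
      rw [Finset.mem_filter, Finset.mem_filter] at ha
      show m (c n a) a = m (c n z0) a
      rw [ha.1.2]
    · rw [Finset.not_nonempty_iff_eq_empty] at hq
      rw [hq]
      simpa using (hh j).le
  · intro z hz
    obtain ⟨p, hp, hpz⟩ := (hG (c n z)).2.2.1 z (by simp [hz])
    refine ⟨p, ?_, hpz⟩
    rw [Finset.mem_biUnion]
    exact ⟨c n z, Finset.mem_image_of_mem _ hz, hp⟩
  · intro p hp
    rw [Finset.mem_biUnion] at hp
    obtain ⟨q, hq, hp⟩ := hp
    obtain ⟨h1, h2, z, hz, hz'⟩ := (hG q).2.2.2.1 p hp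
    exact ⟨h1, h2, z, (Finset.mem_filter.1 hz).1, hz'⟩
  · calc ∑ p ∈ (Z.image (c n)).biUnion P, h p.1
        ≤ ∑ q ∈ Z.image (c n), ∑ p ∈ P q, h p.1 := by
          exact sum_biUnion_le' _ _ _ fun b => (hh b.1).le
      _ ≤ ∑ q ∈ Z.image (c n), ∑ z ∈ Z with c n z = q, m q z :=
          Finset.sum_le_sum fun q _ => (hG q).2.2.2.2
      _ = ∑ q ∈ Z.image (c n), ∑ z ∈ Z with c n z = q, m (c n z) z := by
          refine Finset.sum_congr rfl fun q _ => Finset.sum_congr rfl fun z hz => ?_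
          rw [(Finset.mem_filter.1 hz).2]
      _ = ∑ z ∈ Z, m (c n z) z :=
          Finset.sum_fiberwise_of_maps_to (fun z hz => Finset.mem_image_of_mem _ hz) _

lemma base (c : ℕ → α → κ) (h : ℕ → ℝ) (N : ℕ) (hh : ∀ j, 0 < h j) (Z : Finset α) (q₀ : κ)
    (hZ : ∀ z ∈ Z, c N z = q₀) (hne : Z.Nonempty) : ∃ m P, Good c h N N Z m P := by
  have hc : (0 : ℝ) < Z.card := by exact_mod_cast hne.card_pos
  have hs : ∑ z ∈ Z, (h N / Z.card) = h N := by
    rw [Finset.sum_const, nsmul_eq_mul]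
    field_simp
  refine ⟨fun _ => h N / Z.card, {(N, q₀)}, ?_, ?_, ?_, ?_, ?_⟩
  · intro z
    exact (div_pos (hh N) hc).le
  · intro j h1 h2 q
    obtain rfl : j = N := le_antisymm h2 h1
    calc ∑ z ∈ Z with c j z = q, h j / Z.card ≤ ∑ z ∈ Z, h j / Z.card :=
          Finset.sum_le_sum_of_subset_of_nonneg (Finset.filter_subset _ _)
            (fun _ _ _ => (div_pos (hh j) hc).le)
      _ = h j := hs
  · intro z hz
    exact ⟨(N, q₀), by simp, hZ z hz⟩
  · intro p hp
    rw [Finset.mem_singleton] at hp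
    subst hp
    obtain ⟨z, hz⟩ := hne
    exact ⟨le_rfl, le_rfl, z, hz, hZ z hz⟩
  · rw [hs]; simp

lemma step (c : ℕ → α → κ) (h : ℕ → ℝ) (n N : ℕ) (hnN : n < N) (hh : ∀ j, 0 < h j) (Z : Finset α)
    (q₀ : κ) (hZ : ∀ z ∈ Z, c n z = q₀) (hne : Z.Nonempty)
    (H : ∃ m P, Good c h (n + 1) N Z m P) : ∃ m P, Good c h n N Z m P := by
  obtain ⟨m, P, h1, h2, h3, h4, h5⟩ := H
  by_cases hM : ∑ z ∈ Z, m z ≤ h n
  · refine ⟨m, P, h1, ?_, h3, ?_, h5⟩
    · intro j hj1 hj2 q
      rcases Nat.eq_or_lt_of_le hj1 with rfl | hj1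
      · refine le_trans ?_ hM
        exact Finset.sum_le_sum_of_subset_of_nonneg (Finset.filter_subset _ _)
            (fun _ _ _ => h1 _)
      · exact h2 j hj1 hj2 q
    · intro p hp
      obtain ⟨a, b, c'⟩ := h4 p hp
      exact ⟨by omega, b, c'⟩
  · push Not at hM
    have hMpos : 0 < ∑ z ∈ Z, m z := (hh n).trans hM
    set M := ∑ z ∈ Z, m z with hMdef
    have hr0 : 0 ≤ h n / M := (div_pos (hh n) hMpos).le
    have hr1 : h n / M ≤ 1 := (div_le_one hMpos).2 hM.le
    have hs : ∑ z ∈ Z, h n / M * m z = h n := by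
      rw [← Finset.mul_sum, ← hMdef]
      field_simp
    refine ⟨fun z => h n / M * m z, {(n, q₀)}, ?_, ?_, ?_, ?_, ?_⟩
    · intro z
      exact mul_nonneg hr0 (h1 z)
    · intro j hj1 hj2 q
      rcases Nat.eq_or_lt_of_le hj1 with rfl | hj1
      · calc ∑ z ∈ Z with c n z = q, h n / M * m z ≤ ∑ z ∈ Z, h n / M * m z :=
              Finset.sum_le_sum_of_subset_of_nonneg (Finset.filter_subset _ _)
                (fun _ _ _ => mul_nonneg hr0 (h1 _))
          _ = h n := hs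
      · rw [← Finset.mul_sum]
        have h6 := h2 j hj1 hj2 q
        have h7 : 0 ≤ ∑ z ∈ Z with c j z = q, m z := Finset.sum_nonneg fun _ _ => h1 _
        nlinarith
    · intro z hz
      exact ⟨(n, q₀), by simp, hZ z hz⟩
    · intro p hp
      rw [Finset.mem_singleton] at hp
      subst hp
      obtain ⟨z, hz⟩ := hne
      exact ⟨le_rfl, hnN.le, z, hz, hZ z hz⟩
    · rw [hs]; simp

lemma main (c : ℕ → α → κ) (h : ℕ → ℝ) (N : ℕ) (hh : ∀ j, 0 < h j) :
    ∀ d n, n + d = N → ∀ Z : Finset α, Nest c Z → ∃ m P, Good c h n N Z m P := by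
  intro d
  induction d with
  | zero =>
    intro n hn Z hZ
    obtain rfl : n = N := by omega
    refine comb c h n n hh Z hZ fun q hq => ?_
    exact base c h n hh _ q (fun z hz => (Finset.mem_filter.1 hz).2) hq
  | succ d ih =>
    intro n hn Z hZ
    refine comb c h n N hh Z hZ fun q hq => ?_
    refine step c h n N (by omega) hh _ q (fun z hz => (Finset.mem_filter.1 hz).2) hq ?_
    refine ih (n + 1) (by omega) _ ?_
    intro j z hz z' hz' hc
    exact hZ j z (Finset.mem_filter.1 hz).1 z' (Finset.mem_filter.1 hz').1 hc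

/-- The finite Frostman lemma. -/
theorem t_FRO : Pool.Agent.K1H52.S_FRO := by
  intro α κ _ Z c h n N hnN hh hnest
  obtain ⟨m, P, hG⟩ := main c h N hh (N - n) n (by omega) Z hnest
  exact ⟨m, P, hG⟩

end Pool.Agent.K1H72.NS
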